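import Pool.Agent.L0h21.RW.FW

set_option autoImplicit false

/-! # Monomial divisors with normal crossings -/

namespace Pool.Agent.L0h21.MD

open MvPolynomial Pool.Agent.L0h21.RW

variable {V : Type}

/-- `N` is the multiplicity of an irreducible component `{q = 0}` in the divisor of `f`. -/
def IsMultiplicity (f : MvPolynomial V ℂ) (N : ℕ) : Prop :=
  ∃ q : MvPolynomial V ℂ, Irreducible q ∧ q ^ N ∣ f ∧ ¬ q ^ (N + 1) ∣ f

/-- There is a weighted blow-up of `ℂ ^ V`, with the weights `w` (at least two are positive) in the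
coordinates `x ↦ φ(Q + x)`, `φ` an automorphism of the affine space, whose exceptional divisor has the
multiplicity `N` in the divisor of `f` and `ν - 1`, `ν = ∑ v, w v`, in the divisor of the Jacobian
determinant, such that the initial form of `f`, `c ∏ j, g j ^ m j`, which is of weighted degree `N`,
has normal crossings exactly outside of the centre `{x | x v = 0 for all v with 0 < w v}`, near the
generic points of the centre (where `h`, a polynomial in the variables of weight zero, does not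
vanish). -/
def IsCrossingDivisor [Fintype V] (f : MvPolynomial V ℂ) (N ν : ℕ) : Prop :=
  ∃ (φ ψ : V → MvPolynomial V ℂ) (Q : V → ℂ) (w : V → ℕ) (J : Type) (_ : Fintype J)
    (g : J → MvPolynomial V ℂ) (e m : J → ℕ) (c : ℂ) (h : MvPolynomial V ℂ),
    IsAut φ ψ ∧ (∃ v v', v ≠ v' ∧ 0 < w v ∧ 0 < w v') ∧ ν = ∑ v, w v ∧
    (∀ j, IsWeightedHomogeneous w (g j) (e j)) ∧ (∀ j, 0 < m j) ∧ c ≠ 0 ∧
    IsInitialForm w N (shift Q (aeval φ f)) (C c * ∏ j, g j ^ m j) ∧
    h ≠ 0 ∧ (∀ v ∈ h.vars, w v = 0) ∧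
    ∀ y, eval y h ≠ 0 → (NormalCrossingsAt g y ↔ ∃ v, 0 < w v ∧ y v ≠ 0)

/-- The quotient `ν / N` is `1 / N'` for the multiplicity `N'` of an irreducible component of the
divisor of `f`, or `ν' / N'` for a crossing divisor of `f`. -/
def IsCandidate [Fintype V] (f : MvPolynomial V ℂ) (N ν : ℕ) : Prop :=
  ∃ N' ν' : ℕ, 0 < N' ∧ N * ν' = N' * ν ∧
    ((ν' = 1 ∧ IsMultiplicity f N') ∨ IsCrossingDivisor f N' ν')

end Pool.Agent.L0h21.MD
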