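import Pool.Agent.L0h21.MD.Def
import Pool.Agent.L0h21.RW.P17
import Pool.Agent.L0h47.RW.HB
import Pool.Agent.L0h47.RW.TT
import Pool.Agent.N138.SV.A1

/-! Monomial divisors with normal crossings: the roots. -/

set_option autoImplicit false
set_option linter.unusedSectionVars false

namespace Pool.Agent.L0h21.MD

open MvPolynomial Pool.Agent.H628R4.TP
open Pool.Agent.N138.SV (Per)
open Pool.Agent.L0h21.SN Pool.Agent.L0h21.RW

variable {V : Type} [Fintype V]

/-- The period of an exceptional divisor. -/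
theorem per_div (f : MvPolynomial V ℂ) (N ν : ℕ) (H : IsCrossingDivisor f N ν) :
    0 < N ∧ 0 < ν ∧ Per f (-(ν : ℂ) / N) := by
  classical
  obtain ⟨φ, ψ, Q, w, J, iJ, g, e, m, c, h, ⟨ha1, ha2⟩, ⟨v, v', hvv, hv, hv'⟩, rfl, hg, hm, hc,
    hin, hh0, hhv, hnc⟩ := H
  have hcard : 2 ≤ Fintype.card (Pos w) :=
    Fintype.one_lt_card_iff.mpr ⟨⟨v, hv⟩, ⟨v', hv'⟩, fun h => hvv (congrArg Subtype.val h)⟩
  have hhom : IsWeightedHomogeneous w h 0 := by
    intro d hd
    rw [Finsupp.weight_apply, Finsupp.sum_fintype _ _ (by simp)]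
    refine Finset.sum_eq_zero fun v _ => ?_
    by_cases hv : d v = 0
    · rw [hv, zero_smul]
    · rw [hhv v ((mem_vars_iff_mem_support v).mpr ⟨d, mem_support_iff.mpr hd,
        Finsupp.mem_support_iff.mpr hv⟩), smul_zero]
  obtain ⟨hd, hHP⟩ := Pool.Agent.L0h47.RW.hb w g e m c h hcard hg hm hc hh0 hhom (by
    intro P hP
    rw [aeval_eq_eval] at hP
    rw [← nc_iff]
    exact hnc P hP)
  have hpos : 0 < ∑ v, w v := lt_of_lt_of_le hv
    (Finset.single_le_sum (f := fun v => w v) (fun _ _ => Nat.zero_le _) (Finset.mem_univ v))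
  have hd0 : ((∑ j, m j * e j : ℕ) : ℂ) ≠ 0 := by exact_mod_cast hd.ne'
  have hw0 : ((∑ v, w v : ℕ) : ℂ) ≠ 0 := by exact_mod_cast hpos.ne'
  have he0 : -((∑ v, w v : ℕ) : ℂ) / (∑ j, m j * e j : ℕ) ≠ 0 :=
    div_ne_zero (neg_ne_zero.2 hw0) hd0
  -- the initial form is not zero
  have hG0 : (C c * ∏ j, g j ^ m j : MvPolynomial V ℂ) ≠ 0 := by
    obtain ⟨S, -, h2, -, -, c0, hc0, hc1⟩ := hHP
    intro h0
    have h3 := h2 c0 hc0 0 1
    rw [h0, zero_mul, map_zero, Nat.cast_zero, zero_sub] at h3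
    rcases mul_eq_zero.1 h3.symm with h4 | h4
    · exact he0 (neg_eq_zero.1 h4)
    · exact hc1 h4
  have hGd : IsWeightedHomogeneous w (C c * ∏ j, g j ^ m j) (∑ j, m j * e j) := by
    have h1 : IsWeightedHomogeneous w (∏ j, g j ^ m j) (∑ j, m j * e j) := by
      refine IsWeightedHomogeneous.prod _ _ _ fun j _ => ?_
      have := (hg j).pow (m j)
      rwa [smul_eq_mul] at this
    have h2 := (isWeightedHomogeneous_C w c).mul h1
    rwa [zero_add] at h2
  have hGN : IsWeightedHomogeneous w (C c * ∏ j, g j ^ m j) N := by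
    rw [← hin.2]
    exact weightedHomogeneousComponent_isWeightedHomogeneous _ _
  have hN : N = ∑ j, m j * e j := hGN.inj_right hG0 hGd
  subst hN
  refine ⟨hd, hpos, ?_⟩
  have h1 : Per (trl Q (aeval φ f)) (-((∑ v, w v : ℕ) : ℂ) / (∑ j, m j * e j : ℕ)) := by
    rw [← shift_eq]
    refine to_per (Pool.Agent.L0h47.RW.t w (∑ j, m j * e j) _ _ _ hd hin.1 hin.2
      (fun he u => ?_) hHP)
    have h3 : ((∑ v, w v : ℕ) : ℂ) = ((∑ j, m j * e j : ℕ) : ℂ) := by
      rw [neg_div, neg_inj, div_eq_one_iff_eq hd0] at he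
      exact he
    have h4 : ∑ v, w v = ∑ j, m j * e j := by exact_mod_cast h3
    rw [← h4]
    obtain ⟨u', hu, huv⟩ : ∃ u' : V, 0 < w u' ∧ u' ≠ u := by
      by_cases h5 : v = u
      · exact ⟨v', hv', fun h6 => hvv (h5.trans h6.symm)⟩
      · exact ⟨v, hv, h5⟩
    have h5 : w u + w u' ≤ ∑ v, w v := by
      rw [← Finset.sum_pair huv.symm]
      exact Finset.sum_le_sum_of_subset (Finset.subset_univ _)
    omega
  have h2 := per_aut ψ φ ha2 ha1 (per_trl _ Q _ h1)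
  have h3 : aeval ψ (aeval φ f) = f := by
    have h4 : (aeval ψ : MvPolynomial V ℂ →ₐ[ℂ] _).comp (aeval φ) = AlgHom.id ℂ _ := by
      ext v : 1
      rw [AlgHom.comp_apply, aeval_X, ha2]
      rfl
    exact DFunLike.congr_fun h4 f
  rwa [h3] at h2

/-- The root of an exceptional divisor, also for the reduced Bernstein-Sato polynomial. -/
theorem root_div (f : MvPolynomial V ℂ) (N ν : ℕ) (H : IsCrossingDivisor f N ν)
    (b : Polynomial ℂ) (hb : IsBFunction f b) :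
    ∃ b' : Polynomial ℂ, b = (Polynomial.X + 1) * b' ∧ b'.eval (-(ν : ℂ) / N) = 0 := by
  obtain ⟨h1, h2, h3⟩ := per_div f N ν H
  refine Pool.Agent.N138.SV.A1.t f _ (div_ne_zero (neg_ne_zero.2 ?_) ?_) h3 b hb
  · exact_mod_cast h2.ne'
  · exact_mod_cast h1.ne'

/-- The root of a component. -/
theorem root_mult (f : MvPolynomial V ℂ) (N : ℕ) (hN : 0 < N) (H : IsMultiplicity f N)
    (b : Polynomial ℂ) (hb : IsBFunction f b) : b.eval (-1 / (N : ℂ)) = 0 := by
  obtain ⟨q, hq, ⟨G, rfl⟩, h2⟩ := H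
  have hqG : ¬ q ∣ G := by
    rintro ⟨G', rfl⟩
    exact h2 ⟨G', by ring⟩
  by_cases h1 : N = 1
  · subst h1
    obtain ⟨P, hP⟩ := hb
    rw [Nat.cast_one, div_one]
    refine Pool.Agent.W574.HS.minus_one (q ^ 1 * G) 1 ?_ ?_ b P fun s => ?_
    · intro h0
      exact h2 (by rw [h0]; exact dvd_zero _)
    · intro h3
      exact hq.not_isUnit (isUnit_of_dvd_one ((Dvd.intro _ (by rw [pow_one])).trans h3))
    · rw [one_mul]
      exact hP s
  · have h3 : Per (q ^ N * G) (-1 / (N : ℂ)) :=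
      to_per (Pool.Agent.LLead.RW.c q G N (by omega) hq.prime hqG)
    have h5 : (-1 / (N : ℂ)) ≠ 0 := div_ne_zero (by norm_num) (by exact_mod_cast hN.ne')
    obtain ⟨b', rfl, h4⟩ := Pool.Agent.N138.SV.A1.t _ _ h5 h3 b hb
    rw [Polynomial.eval_mul, h4, mul_zero]

/-- The root of a candidate. -/
theorem root_cand (f : MvPolynomial V ℂ) (N ν : ℕ) (hN : 0 < N) (H : IsCandidate f N ν)
    (b : Polynomial ℂ) (hb : IsBFunction f b) : b.eval (-(ν : ℂ) / N) = 0 := by
  obtain ⟨N', ν', hN', h1, h2⟩ := H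
  have h3 : (ν : ℂ) / N = ν' / N' := by
    rw [div_eq_div_iff (by exact_mod_cast hN.ne') (by exact_mod_cast hN'.ne')]
    have : ((N * ν' : ℕ) : ℂ) = ((N' * ν : ℕ) : ℂ) := by rw [h1]
    push_cast at this
    linear_combination -this
  rw [neg_div, h3, ← neg_div]
  rcases h2 with ⟨rfl, h2⟩ | h2
  · rw [Nat.cast_one]
    exact root_mult f N' hN' h2 b hb
  · obtain ⟨b', rfl, h4⟩ := root_div f N' ν' h2 b hb
    rw [Polynomial.eval_mul, h4, mul_zero]

end Pool.Agent.L0h21.MD
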