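import Pool.Agent.L0h21.MD.Main
import Pool.Agent.L0h21.SN.Strict2

/-! Initial forms for the weights `(2, 3, …, 3)`. -/

set_option autoImplicit false
set_option linter.unusedSectionVars false

namespace Pool.Agent.L0h21.MD

open MvPolynomial Pool.Agent.L0h21.SN Pool.Agent.L0h21.RW

variable {V : Type} [Fintype V] [DecidableEq V]

/-- The weights. -/
def wz (i : V) (v : V) : ℕ := if v = i then 2 else 3

theorem deg_eq (m : V →₀ ℕ) : Finsupp.degree m = ∑ v, m v := Finsupp.degree_eq_sum m

theorem wt_eq (i : V) (m : V →₀ ℕ) : Finsupp.weight (wz i) m + m i = 3 * Finsupp.degree m := by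
  rw [Finsupp.weight_apply, Finsupp.sum_fintype _ _ (by simp), deg_eq, Finset.mul_sum,
    ← Finset.sum_erase_add _ _ (Finset.mem_univ i)]
  have h1 : ∑ v, 3 * m v = ∑ v ∈ Finset.univ.erase i, 3 * m v + 3 * m i :=
    (Finset.sum_erase_add _ _ (Finset.mem_univ i)).symm
  rw [h1, Finset.sum_congr rfl fun v hv => by
    rw [wz, if_neg (Finset.ne_of_mem_erase hv), smul_eq_mul, mul_comm]]
  rw [wz, if_pos rfl, smul_eq_mul]
  omega

theorem le_deg (i : V) (m : V →₀ ℕ) : m i ≤ Finsupp.degree m := by
  rw [deg_eq]
  exact Finset.single_le_sum (f := fun v => m v) (fun _ _ => Nat.zero_le _) (Finset.mem_univ i)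

theorem eq_single (i : V) (m : V →₀ ℕ) (h : m i = Finsupp.degree m) :
    m = Finsupp.single i (Finsupp.degree m) := by
  have h1 : ∑ v ∈ Finset.univ.erase i, m v = 0 := by
    have h2 := deg_eq m
    rw [← Finset.sum_erase_add _ _ (Finset.mem_univ i)] at h2
    omega
  ext v
  by_cases hv : v = i
  · subst hv
    rw [Finsupp.single_eq_same, h]
  · rw [Finsupp.single_eq_of_ne hv]
    exact Finset.sum_eq_zero_iff.1 h1 v (Finset.mem_erase.2 ⟨hv, Finset.mem_univ _⟩)

theorem hom_deg {G : MvPolynomial V ℂ} {e : ℕ} (h : G.IsHomogeneous e) {m : V →₀ ℕ}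
    (hm : coeff m G ≠ 0) : Finsupp.degree m = e := by
  have h1 := h hm
  rw [← h1, Finsupp.weight_apply, Finsupp.sum_fintype _ _ (by simp), deg_eq]
  simp

theorem eval_single {G : MvPolynomial V ℂ} {e : ℕ} (h : G.IsHomogeneous e) (i : V) :
    eval (Pi.single i 1) G = coeff (Finsupp.single i e) G := by
  rw [eval_eq']
  rw [Finset.sum_eq_single (Finsupp.single i e)]
  · rw [Finset.prod_eq_one, mul_one]
    intro v _
    by_cases hv : v = i
    · subst hv
      rw [Pi.single_eq_same, one_pow]
    · rw [Finsupp.single_eq_of_ne hv, pow_zero]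
  · intro m hm hne
    rw [mem_support_iff] at hm
    obtain ⟨v, hv, hv0⟩ : ∃ v, v ≠ i ∧ m v ≠ 0 := by
      by_contra hcon
      push Not at hcon
      apply hne
      have h1 : m i = Finsupp.degree m := by
        rw [deg_eq, Finset.sum_eq_single i (fun v _ hv => hcon v hv) (by simp)]
      have h2 := eq_single i m h1
      rw [hom_deg h hm] at h2
      exact h2
    rw [Finset.prod_eq_zero (Finset.mem_univ v), mul_zero]
    rw [Pi.single_eq_of_ne hv, zero_pow hv0]
  · intro hm
    rw [notMem_support_iff.1 hm, zero_mul]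

/-- The low form of a form. -/
theorem low0 {G : MvPolynomial V ℂ} {e : ℕ} (h : G.IsHomogeneous e) (i : V) :
    LowC (wz i) (2 * e) G (C (eval (Pi.single i 1) G) * X i ^ e) := by
  have h1 : OrdGE (wz i) (2 * e) G := by
    rw [ordGE_iff]
    intro m hm
    have h2 := wt_eq i m
    have h3 := le_deg i m
    have h4 := hom_deg h hm
    omega
  refine ⟨h1, ?_⟩
  ext m
  rw [coeff_weightedHomogeneousComponent, eval_single h, coeff_C_mul, coeff_X_pow]
  by_cases hm : Finsupp.single i e = m
  · subst hm
    rw [if_pos rfl, mul_one, if_pos]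
    rw [Finsupp.weight_single, wz, if_pos rfl, smul_eq_mul, mul_comm]
  · rw [if_neg hm, mul_zero]
    split_ifs with h2
    · by_contra h3
      apply hm
      have h4 := wt_eq i m
      have h5 := hom_deg h h3
      have h6 := eq_single i m (by omega)
      rw [h5] at h6
      exact h6.symm
    · rfl

/-- The low form of a form which vanishes at the point. -/
theorem low1 {G : MvPolynomial V ℂ} {e : ℕ} (h : G.IsHomogeneous (e + 1)) (i : V)
    (h0 : eval (Pi.single i 1) G = 0) :
    LowC (wz i) (2 * e + 3) G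
      (X i ^ e * ∑ v ∈ Finset.univ.erase i, C (eval (Pi.single i 1) (pderiv v G)) * X v) := by
  have h1 := low0 h i
  rw [h0, map_zero, zero_mul] at h1
  refine ⟨fun a ha => ?_, ?_⟩
  · rcases Nat.lt_succ_iff_lt_or_eq.mp (show a < (2 * (e + 1)) + 1 by omega) with h2 | h2
    · exact h1.1 a h2
    · rw [h2]
      exact h1.2
  · set G' := weightedHomogeneousComponent (wz i) (2 * e + 3) G with hG'
    have h2 : IsWeightedHomogeneous (fun v => if v = i then 0 else 1) G' 1 := by
      intro m hm
      rw [hG', coeff_weightedHomogeneousComponent] at hm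
      have h3 : Finsupp.weight (wz i) m = 2 * e + 3 := by
        by_contra h4
        rw [if_neg h4] at hm
        exact hm rfl
      rw [if_pos h3] at hm
      have h4 := hom_deg h hm
      have h5 := wt_eq i m
      rw [Finsupp.weight_apply, Finsupp.sum_fintype _ _ (by simp),
        ← Finset.sum_erase_add _ _ (Finset.mem_univ i), if_pos rfl, smul_zero, add_zero]
      rw [Finset.sum_congr rfl fun v hv => by
        rw [if_neg (Finset.ne_of_mem_erase hv), smul_eq_mul, mul_one]]
      have h6 := deg_eq m
      rw [← Finset.sum_erase_add _ _ (Finset.mem_univ i)] at h6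
      change ∑ x ∈ Finset.univ.erase i, m x = 1
      omega
    have h3 := h2.sum_weight_X_mul_pderiv
    rw [one_nsmul, ← Finset.sum_erase_add _ _ (Finset.mem_univ i), if_pos rfl, zero_nsmul,
      add_zero] at h3
    rw [← h3, Finset.mul_sum]
    refine Finset.sum_congr rfl fun v hv => ?_
    rw [if_neg (Finset.ne_of_mem_erase hv), one_nsmul]
    have h4 := whc_pderiv (wz i) v (2 * e) G
    rw [wz, if_neg (Finset.ne_of_mem_erase hv)] at h4
    have h5 : (pderiv v G).IsHomogeneous e := by
      have := h.pderiv (i := v)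
      rwa [Nat.add_sub_cancel] at this
    rw [(low0 h5 i).2] at h4
    rw [← h4]
    ring

end Pool.Agent.L0h21.MD
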