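import Pool.Agent.L0h21.MD.S1

/-! The low form of a superisolated singularity at a node of the tangent cone. -/

set_option autoImplicit false
set_option linter.unusedSectionVars false

namespace Pool.Agent.L0h21.MD

open MvPolynomial Pool.Agent.L0h21.SN Pool.Agent.L0h21.RW

variable {V : Type} [Fintype V] [DecidableEq V]

/-- A linear change of coordinates which maps `e_i` to `y`. -/
noncomputable def phi (y : V → ℂ) (i : V) (v : V) : MvPolynomial V ℂ :=
  if v = i then C (y i) * X i else X v + C (y v) * X i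

theorem phi_hom (y : V → ℂ) (i v : V) : (phi y i v).IsHomogeneous 1 := by
  unfold phi
  split_ifs
  · exact (isHomogeneous_X ℂ i).C_mul _
  · exact (isHomogeneous_X ℂ v).add ((isHomogeneous_X ℂ i).C_mul _)

theorem phi_eval (y : V → ℂ) (i v : V) : eval (Pi.single i 1) (phi y i v) = y v := by
  unfold phi
  split_ifs with h
  · subst h
    simp
  · simp [h]

theorem phi_ord (y : V → ℂ) (i v : V) : OrdGE (wz i) 2 (phi y i v) := by
  rw [ordGE_iff]
  intro m hm
  have h1 := wt_eq i m
  have h2 := le_deg i m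
  have h3 := hom_deg (phi_hom y i v) hm
  omega

theorem aphi_hom (y : V → ℂ) (i : V) {G : MvPolynomial V ℂ} {e : ℕ} (h : G.IsHomogeneous e) :
    (aeval (phi y i) G).IsHomogeneous e := by
  have := h.aeval (phi y i) (fun v => phi_hom y i v)
  rwa [one_mul] at this

theorem aphi_eval (y : V → ℂ) (i : V) (G : MvPolynomial V ℂ) :
    eval (Pi.single i 1) (aeval (phi y i) G) = eval y G := by
  rw [eval_aeval']
  congr 2
  funext v
  exact phi_eval y i v

theorem aphi_pderiv (y : V → ℂ) (i u : V) (hu : u ≠ i) (G : MvPolynomial V ℂ) :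
    eval (Pi.single i 1) (pderiv u (aeval (phi y i) G)) = eval y (pderiv u G) := by
  rw [chain_rule, Finset.sum_eq_single u]
  · have h1 : pderiv u (phi y i u) = 1 := by
      unfold phi
      rw [if_neg hu, map_add, pderiv_X_self, pderiv_C_mul, pderiv_X_of_ne (Ne.symm hu), mul_zero,
        add_zero]
    rw [h1, one_mul, aphi_eval]
  · intro v _ hv
    have h1 : pderiv u (phi y i v) = 0 := by
      unfold phi
      split_ifs with h
      · rw [pderiv_C_mul, pderiv_X_of_ne (Ne.symm hu), mul_zero]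
      · rw [map_add, pderiv_X_of_ne hv, pderiv_C_mul, pderiv_X_of_ne (Ne.symm hu), mul_zero,
          add_zero]
    rw [h1, zero_mul]
  · intro h
    exact absurd (Finset.mem_univ _) h

/-- High order. -/
theorem aphi_ord (y : V → ℂ) (i : V) (K : ℕ) (R : MvPolynomial V ℂ)
    (hR : ∀ m, coeff m R ≠ 0 → K ≤ Finsupp.degree m) : OrdGE (wz i) (2 * K) (aeval (phi y i) R) := by
  rw [aeval_def, eval₂_eq']
  refine OrdGE.sum _ fun m hm => ?_
  have h1 : OrdGE (wz i) (∑ v, m v * 2) (∏ v, phi y i v ^ m v) := by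
    have h2 : ∀ S : Finset V, OrdGE (wz i) (∑ v ∈ S, m v * 2) (∏ v ∈ S, phi y i v ^ m v) := by
      intro S
      induction S using Finset.induction_on with
      | empty => simpa using OrdGE.of_zero _
      | insert a S ha ih =>
        rw [Finset.sum_insert ha, Finset.prod_insert ha]
        refine OrdGE.mul ?_ ih
        generalize m a = n
        induction n with
        | zero => simpa using OrdGE.of_zero _
        | succ n ihn =>
          rw [pow_succ, Nat.succ_mul]
          exact ihn.mul (phi_ord y i a)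
    exact h2 _
  have h3 := hR m (mem_support_iff.1 hm)
  rw [← Finset.sum_mul, ← deg_eq] at h1
  exact (h1.C_mul _).mono (by omega)

/-- The linear form of `g` at `y`. -/
noncomputable def lin (y : V → ℂ) (i : V) (g : MvPolynomial V ℂ) : MvPolynomial V ℂ :=
  ∑ v ∈ Finset.univ.erase i, C (eval y (pderiv v g)) * X v

variable {J : Type} [Fintype J] [DecidableEq J]

/-- The low form of the tangent cone at a node. -/
theorem low_cone (y : V → ℂ) (i : V) (g : J → MvPolynomial V ℂ) (e : J → ℕ)
    (hg : ∀ j, (g j).IsHomogeneous (e j)) (c : ℂ) (a b : J) (hab : a ≠ b)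
    (ha : eval y (g a) = 0) (hb : eval y (g b) = 0) (ea eb : ℕ) (hea : e a = ea + 1)
    (heb : e b = eb + 1) (d : ℕ) (hd : d = ∑ j, e j) :
    2 ≤ d ∧ LowC (wz i) (2 * d + 2) (aeval (phi y i) (C c * ∏ j, g j))
      (X i ^ (d - 2) * (C (c * ∏ j ∈ (Finset.univ.erase a).erase b, eval y (g j)) *
        (lin y i (g a) * lin y i (g b)))) := by
  classical
  set T := (Finset.univ.erase a).erase b with hT
  have hbT : b ∈ Finset.univ.erase a := Finset.mem_erase.2 ⟨hab.symm, Finset.mem_univ _⟩
  have hsum : ∑ j, e j = ∑ j ∈ T, e j + (eb + 1) + (ea + 1) := by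
    rw [hT, ← heb, ← hea, Finset.sum_erase_add _ _ hbT, Finset.sum_erase_add _ _ (Finset.mem_univ _)]
  have hprod : ∏ j, g j = (∏ j ∈ T, g j) * g b * g a := by
    rw [hT, Finset.prod_erase_mul _ _ hbT, Finset.prod_erase_mul _ _ (Finset.mem_univ _)]
  have h1 : LowC (wz i) (∑ j ∈ T, 2 * e j) (∏ j ∈ T, aeval (phi y i) (g j))
      (∏ j ∈ T, (C (eval y (g j)) * X i ^ e j)) := by
    refine LowC.prod T fun j _ => ?_
    have := low0 (aphi_hom y i (hg j)) i
    rwa [aphi_eval] at this
  have h2 : ∀ (k : J) (n : ℕ), e k = n + 1 → eval y (g k) = 0 →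
      LowC (wz i) (2 * n + 3) (aeval (phi y i) (g k)) (X i ^ n * lin y i (g k)) := by
    intro k n hn hk
    have h3 := aphi_hom y i (hg k)
    rw [hn] at h3
    have h4 := low1 h3 i (by rw [aphi_eval, hk])
    have h5 : ∑ v ∈ Finset.univ.erase i, C (eval (Pi.single i 1)
        (pderiv v (aeval (phi y i) (g k)))) * X v = lin y i (g k) := by
      unfold lin
      refine Finset.sum_congr rfl fun v hv => ?_
      rw [aphi_pderiv y i v (Finset.ne_of_mem_erase hv)]
    rwa [h5] at h4
  have h3 := ((LowC.C (w := wz i) c).mul ((h1.mul (h2 b eb heb hb)).mul (h2 a ea hea ha)))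
  refine ⟨by omega, ?_⟩
  have e1 : 0 + (∑ j ∈ T, 2 * e j + (2 * eb + 3) + (2 * ea + 3)) = 2 * d + 2 := by
    rw [← Finset.mul_sum]
    omega
  rw [e1] at h3
  have e2 : aeval (phi y i) (C c * ∏ j, g j) = C c * ((∏ j ∈ T, aeval (phi y i) (g j)) *
      aeval (phi y i) (g b) * aeval (phi y i) (g a)) := by
    rw [hprod, map_mul, map_mul, map_mul, map_prod, aeval_C, algebraMap_eq]
  have e3 : X i ^ (d - 2) * (C (c * ∏ j ∈ T, eval y (g j)) * (lin y i (g a) * lin y i (g b))) =
      C c * ((∏ j ∈ T, (C (eval y (g j)) * X i ^ e j)) * (X i ^ eb * lin y i (g b)) *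
        (X i ^ ea * lin y i (g a))) := by
    have e4 : d - 2 = ∑ j ∈ T, e j + eb + ea := by omega
    have e5 : (C (c * ∏ j ∈ T, eval y (g j)) : MvPolynomial V ℂ) =
        C c * ∏ j ∈ T, C (eval y (g j)) := by
      rw [C_mul]
      congr 1
      exact map_prod C _ _
    rw [Finset.prod_mul_distrib, Finset.prod_pow_eq_pow_sum, e5, e4, pow_add, pow_add]
    ring
  rw [e2, e3]
  exact h3

end Pool.Agent.L0h21.MD
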