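import Pool.Agent.L0h21.MD.S2

/-! Normal crossings of the initial form. -/

set_option autoImplicit false
set_option linter.unusedSectionVars false

namespace Pool.Agent.L0h21.MD

open MvPolynomial Pool.Agent.L0h21.SN Pool.Agent.L0h21.RW

variable {V : Type} [Fintype V] [DecidableEq V]

/-- The value of the linear form. -/
theorem lin_eval (y : V → ℂ) (i : V) (g : MvPolynomial V ℂ) (x : V → ℂ) :
    eval x (lin y i g) = ∑ v ∈ Finset.univ.erase i, eval y (pderiv v g) * x v := by
  unfold lin
  rw [map_sum]
  refine Finset.sum_congr rfl fun v _ => ?_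
  rw [map_mul, eval_C, eval_X]

theorem lin_pderiv (y : V → ℂ) (i : V) (g : MvPolynomial V ℂ) (u : V) (hu : u ≠ i) :
    pderiv u (lin y i g) = C (eval y (pderiv u g)) := by
  unfold lin
  rw [map_sum, Finset.sum_eq_single u]
  · rw [pderiv_C_mul, pderiv_X_self, mul_one]
  · intro v _ hv
    rw [pderiv_C_mul, pderiv_X_of_ne hv, mul_zero]
  · intro h
    exact absurd (Finset.mem_erase.2 ⟨hu, Finset.mem_univ _⟩) h

/-- The second factor of the initial form. -/
noncomputable def cub (y : V → ℂ) (i : V) (ga gb : MvPolynomial V ℂ) (κ δ : ℂ) : MvPolynomial V ℂ :=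
  C κ * (lin y i ga * lin y i gb) + C δ * X i ^ 3

theorem cub_eval (y : V → ℂ) (i : V) (ga gb : MvPolynomial V ℂ) (κ δ : ℂ) (x : V → ℂ) :
    eval x (cub y i ga gb κ δ) = κ * (eval x (lin y i ga) * eval x (lin y i gb)) + δ * x i ^ 3 := by
  unfold cub
  rw [map_add, map_mul, map_mul, map_mul, eval_C, eval_C, map_pow, eval_X]

theorem cub_pderiv (y : V → ℂ) (i : V) (ga gb : MvPolynomial V ℂ) (κ δ : ℂ) (x : V → ℂ) (u : V)
    (hu : u ≠ i) : eval x (pderiv u (cub y i ga gb κ δ)) =
      κ * (eval x (lin y i ga) * eval y (pderiv u gb) +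
        eval x (lin y i gb) * eval y (pderiv u ga)) := by
  unfold cub
  rw [map_add, pderiv_C_mul, pderiv_C_mul, Derivation.leibniz, lin_pderiv y i ga u hu,
    lin_pderiv y i gb u hu, pderiv_pow, pderiv_X_of_ne (Ne.symm hu), mul_zero, mul_zero, add_zero,
    smul_eq_mul, smul_eq_mul, map_mul, map_add, map_mul, map_mul, eval_C, eval_C, eval_C]

/-- The two components of the initial form. -/
noncomputable def twoG (y : V → ℂ) (i : V) (ga gb : MvPolynomial V ℂ) (κ δ : ℂ) :
    Bool → MvPolynomial V ℂ
  | false => X i
  | true => cub y i ga gb κ δ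

/-- **Normal crossings of the initial form.** -/
theorem nc_two (y : V → ℂ) (i : V) (ga gb : MvPolynomial V ℂ) (κ δ : ℂ) (hκ : κ ≠ 0) (hδ : δ ≠ 0)
    (hind : ∀ α β : ℂ, (∀ v, v ≠ i → α * eval y (pderiv v ga) + β * eval y (pderiv v gb) = 0) →
      α = 0 ∧ β = 0)
    (hker : ∀ x : V → ℂ, x i = 0 → eval x (lin y i ga) = 0 → eval x (lin y i gb) = 0 → x = 0)
    (x : V → ℂ) : NormalCrossingsAt (twoG y i ga gb κ δ) x ↔ x ≠ 0 := by
  classical
  constructor
  · rintro h rfl
    have h0 : eval (0 : V → ℂ) (twoG y i ga gb κ δ true) = 0 := by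
      change eval 0 (cub y i ga gb κ δ) = 0
      rw [cub_eval, lin_eval, lin_eval]
      simp
    have h1 := h.ne_zero ⟨true, h0⟩
    apply h1
    funext v
    change eval 0 (pderiv v (cub y i ga gb κ δ)) = 0
    by_cases hv : v = i
    · subst hv
      have h2 : ∀ g : MvPolynomial V ℂ, pderiv v (lin y v g) = 0 := by
        intro g
        unfold lin
        rw [map_sum]
        refine Finset.sum_eq_zero fun u hu => ?_
        rw [pderiv_C_mul, pderiv_X_of_ne (Finset.ne_of_mem_erase hu), mul_zero]
      unfold cub
      rw [map_add, pderiv_C_mul, pderiv_C_mul, Derivation.leibniz, h2, h2, smul_zero, smul_zero,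
        pderiv_pow, pderiv_X_self]
      simp
    · rw [cub_pderiv y i ga gb κ δ 0 v hv, lin_eval, lin_eval]
      simp
  · intro hx
    have key : eval x (twoG y i ga gb κ δ true) = 0 →
        ∃ v, v ≠ i ∧ eval x (pderiv v (twoG y i ga gb κ δ true)) ≠ 0 := by
      intro h0
      change eval x (cub y i ga gb κ δ) = 0 at h0
      rw [cub_eval] at h0
      by_contra hcon
      push Not at hcon
      have h1 := hind (κ * eval x (lin y i gb)) (κ * eval x (lin y i ga)) fun v hv => by
        have h2 : eval x (pderiv v (cub y i ga gb κ δ)) = 0 := hcon v hv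
        rw [cub_pderiv y i ga gb κ δ x v hv] at h2
        linear_combination h2
      have h2 : eval x (lin y i gb) = 0 := (mul_eq_zero.1 h1.1).resolve_left hκ
      have h3 : eval x (lin y i ga) = 0 := (mul_eq_zero.1 h1.2).resolve_left hκ
      rw [h2, mul_zero, mul_zero, zero_add] at h0
      have h4 : x i = 0 := by
        have := (mul_eq_zero.1 h0).resolve_left hδ
        exact pow_eq_zero_iff (by norm_num) |>.1 this
      exact hx (hker x h4 h3 h2)
    unfold NormalCrossingsAt
    rw [Fintype.linearIndependent_iff]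
    intro a ha
    have hcomp : ∀ v, ∑ j : {j : Bool // eval x (twoG y i ga gb κ δ j) = 0},
        a j * eval x (pderiv v (twoG y i ga gb κ δ j.1)) = 0 := by
      intro v
      have := congrFun ha v
      rw [Finset.sum_apply] at this
      simpa using this
    have ht : ∀ h : eval x (twoG y i ga gb κ δ true) = 0, a ⟨true, h⟩ = 0 := by
      intro h
      obtain ⟨v, hv, hv0⟩ := key h
      have h1 := hcomp v
      rw [Finset.sum_eq_single ⟨true, h⟩] at h1
      · exact (mul_eq_zero.1 h1).resolve_right hv0
      · rintro ⟨j, hj⟩ _ hne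
        have hjf : j = false := by
          cases j
          · rfl
          · exact absurd rfl hne
        subst hjf
        have h2 : eval x (pderiv v (twoG y i ga gb κ δ false)) = 0 := by
          change eval x (pderiv v (X i)) = 0
          rw [pderiv_X_of_ne (Ne.symm hv), map_zero]
        change a ⟨false, hj⟩ * eval x (pderiv v (twoG y i ga gb κ δ false)) = 0
        rw [h2, mul_zero]
      · intro h3
        exact absurd (Finset.mem_univ _) h3
    rintro ⟨j, hj⟩
    cases j
    · have h1 := hcomp i
      rw [Finset.sum_eq_single ⟨false, hj⟩] at h1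
      · have h2 : eval x (pderiv i (twoG y i ga gb κ δ false)) = 1 := by
          change eval x (pderiv i (X i)) = 1
          rw [pderiv_X_self, map_one]
        change a ⟨false, hj⟩ * eval x (pderiv i (twoG y i ga gb κ δ false)) = 0 at h1
        rwa [h2, mul_one] at h1
      · rintro ⟨j, hj'⟩ _ hne
        have hjt : j = true := by
          cases j
          · exact absurd rfl hne
          · rfl
        subst hjt
        rw [ht hj', zero_mul]
      · intro h3
        exact absurd (Finset.mem_univ _) h3
    · exact ht hj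

end Pool.Agent.L0h21.MD
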