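import Pool.Agent.L0h21.MD.S3

/-! The crossing divisor at a node of the tangent cone. -/

set_option autoImplicit false
set_option linter.unusedSectionVars false

namespace Pool.Agent.L0h21.MD

open MvPolynomial Pool.Agent.L0h21.SN Pool.Agent.L0h21.RW

variable {V : Type} [Fintype V] [DecidableEq V]

theorem sum_wz (i : V) : ∑ v, wz i v + 1 = 3 * Fintype.card V := by
  rw [← Finset.sum_erase_add _ _ (Finset.mem_univ i), Finset.sum_congr rfl fun v hv => by
    rw [wz, if_neg (Finset.ne_of_mem_erase hv)], Finset.sum_const,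
    Finset.card_erase_of_mem (Finset.mem_univ i), Finset.card_univ, wz, if_pos rfl, smul_eq_mul]
  have : 0 < Fintype.card V := Fintype.card_pos_iff.2 ⟨i⟩
  omega

/-- The affine change of coordinates. -/
noncomputable def aff (P y : V → ℂ) (i : V) (v : V) : MvPolynomial V ℂ := C (P v) + phi y i v

/-- Its inverse. -/
noncomputable def affI (P y : V → ℂ) (i : V) (v : V) : MvPolynomial V ℂ :=
  if v = i then C (y i)⁻¹ * (X i - C (P i)) else
    X v - C (P v) - C (y v * (y i)⁻¹) * (X i - C (P i))

theorem isAut_aff (P y : V → ℂ) (i : V) (hy : y i ≠ 0) : IsAut (aff P y i) (affI P y i) := by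
  have h1 : (C (y i) * C (y i)⁻¹ : MvPolynomial V ℂ) = 1 := by
    rw [← C_mul, mul_inv_cancel₀ hy, C_1]
  constructor
  · intro v
    unfold affI
    split_ifs with h
    · subst h
      rw [map_mul, map_sub, aeval_C, aeval_C, aeval_X, algebraMap_eq, aff, phi, if_pos rfl]
      linear_combination (X v) * h1
    · rw [map_sub, map_sub, map_mul, map_sub, aeval_C, aeval_C, aeval_C, aeval_X, aeval_X,
        algebraMap_eq, aff, aff, phi, phi, if_pos rfl, if_neg h, C_mul]
      linear_combination (- C (y v) * X i) * h1
  · intro v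
    unfold aff phi
    split_ifs with h
    · subst h
      rw [map_add, map_mul, aeval_C, aeval_C, aeval_X, algebraMap_eq, affI, if_pos rfl]
      linear_combination (X v - C (P v)) * h1
    · rw [map_add, map_add, map_mul, aeval_C, aeval_C, aeval_X, aeval_X, algebraMap_eq, affI, affI,
        if_pos rfl, if_neg h, C_mul]
      ring

theorem shift_aff (P y : V → ℂ) (i : V) (f : MvPolynomial V ℂ) :
    shift 0 (aeval (aff P y i) f) = aeval (phi y i) (shift P f) := by
  have h1 : ∀ q : MvPolynomial V ℂ, shift 0 q = q := by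
    intro q
    unfold shift
    have : (fun v => C ((0 : V → ℂ) v) + X v : V → MvPolynomial V ℂ) = X := by
      funext v
      rw [Pi.zero_apply, C_0, zero_add]
    rw [this, aeval_X_left_apply]
  rw [h1]
  unfold shift
  induction f using MvPolynomial.induction_on with
  | C a => simp
  | add p q hp hq => rw [map_add, map_add, map_add, hp, hq]
  | mul_X p v hp =>
    rw [map_mul, map_mul, map_mul, hp, aeval_X, aeval_X, map_add, aeval_C, aeval_X,
      algebraMap_eq, aff]

/-- The low form of the polynomial. -/
theorem low_node (P y : V → ℂ) (i : V) (f : MvPolynomial V ℂ) (d : ℕ)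
    (hlow : ∀ a < d, homogeneousComponent a (shift P f) = 0) {J : Type} [Fintype J] [DecidableEq J]
    (g : J → MvPolynomial V ℂ) (e : J → ℕ) (hg : ∀ j, (g j).IsHomogeneous (e j)) (c : ℂ)
    (hcone : homogeneousComponent d (shift P f) = C c * ∏ j, g j) (a b : J) (hab : a ≠ b)
    (ha : eval y (g a) = 0) (hb : eval y (g b) = 0) (ea eb : ℕ) (hea : e a = ea + 1)
    (heb : e b = eb + 1) (hd : d = ∑ j, e j) :
    LowC (wz i) (2 * d + 2) (shift 0 (aeval (aff P y i) f))
      (X i ^ (d - 2) * cub y i (g a) (g b)
        (c * ∏ j ∈ (Finset.univ.erase a).erase b, eval y (g j))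
        (eval y (homogeneousComponent (d + 1) (shift P f)))) := by
  obtain ⟨h2d, h1⟩ := low_cone y i g e hg c a b hab ha hb ea eb hea heb d hd
  rw [shift_aff]
  set S := shift P f with hS
  have h2 := low0 (aphi_hom y i (homogeneousComponent_isHomogeneous (d + 1) S)) i
  rw [aphi_eval] at h2
  have h3 : OrdGE (wz i) (2 * (d + 2)) (aeval (phi y i)
      (S - homogeneousComponent d S - homogeneousComponent (d + 1) S)) := by
    refine aphi_ord y i (d + 2) _ fun m hm => ?_
    rw [coeff_sub, coeff_sub, coeff_homogeneousComponent, coeff_homogeneousComponent] at hm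
    by_contra hlt
    have h4 : Finsupp.degree m < d ∨ Finsupp.degree m = d ∨ Finsupp.degree m = d + 1 := by omega
    rcases h4 with h4 | h4 | h4
    · have h5 := congrArg (coeff m) (hlow _ h4)
      rw [coeff_homogeneousComponent, if_pos rfl, coeff_zero] at h5
      rw [h5] at hm
      simp at hm
    · rw [if_pos h4, if_neg (by omega)] at hm
      simp at hm
    · rw [if_neg (by omega), if_pos h4] at hm
      simp at hm
  have h4 : aeval (phi y i) S = aeval (phi y i) (C c * ∏ j, g j) +
      aeval (phi y i) (homogeneousComponent (d + 1) S) + aeval (phi y i)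
        (S - homogeneousComponent d S - homogeneousComponent (d + 1) S) := by
    rw [← hcone, ← map_add, ← map_add]
    congr 1
    ring
  rw [h4]
  have h5 : 2 * (d + 1) = 2 * d + 2 := by ring
  rw [h5] at h2
  refine ⟨(h1.1.add h2.1).add (h3.mono (by omega)), ?_⟩
  rw [map_add, map_add, h1.2, h2.2, h3 (2 * d + 2) (by omega), add_zero]
  unfold cub
  have h6 : (X i : MvPolynomial V ℂ) ^ (d + 1) = X i ^ (d - 2) * X i ^ 3 := by
    rw [← pow_add]
    congr 1
    omega
  rw [h6]
  ring

/-- Euler's formula at a zero. -/
theorem euler (y : V → ℂ) (G : MvPolynomial V ℂ) (e : ℕ) (h : G.IsHomogeneous e) :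
    ∑ v, y v * eval y (pderiv v G) = e * eval y G := by
  have h1 := h.sum_X_mul_pderiv
  have h2 := congrArg (eval y) h1
  rw [map_sum, nsmul_eq_mul, map_mul, map_natCast] at h2
  rw [← h2]
  refine Finset.sum_congr rfl fun v _ => ?_
  rw [map_mul, eval_X]

/-- **The crossing divisor at a node of the tangent cone.** -/
theorem cross_node (hV : Fintype.card V = 3) (P y : V → ℂ) (f : MvPolynomial V ℂ) (d : ℕ)
    (h3d : 3 ≤ d)
    (hlow : ∀ a < d, homogeneousComponent a (shift P f) = 0) {J : Type} [Fintype J] [DecidableEq J]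
    (g : J → MvPolynomial V ℂ) (e : J → ℕ) (hg : ∀ j, (g j).IsHomogeneous (e j)) (c : ℂ)
    (hc : c ≠ 0)
    (hcone : homogeneousComponent d (shift P f) = C c * ∏ j, g j) (hd : d = ∑ j, e j)
    (hnc : NormalCrossingsAt g y) (a b : J) (hab : a ≠ b)
    (hother : ∀ j, j ≠ a → j ≠ b → eval y (g j) ≠ 0) (ha : eval y (g a) = 0)
    (hb : eval y (g b) = 0)
    (hy : y ≠ 0) (hnext : eval y (homogeneousComponent (d + 1) (shift P f)) ≠ 0) :
    IsCrossingDivisor f (2 * d + 2) 8 := by
  classical
  obtain ⟨i, hi⟩ : ∃ i, y i ≠ 0 := by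
    by_contra h
    push Not at h
    exact hy (funext h)
  have hind0 : ∀ α β : ℂ, (∀ v, α * eval y (pderiv v (g a)) + β * eval y (pderiv v (g b)) = 0) →
      α = 0 ∧ β = 0 := by
    intro α β h
    have h1 := (Fintype.linearIndependent_iff.1 hnc)
      (fun j => if j.1 = a then α else if j.1 = b then β else 0) (by
      funext v
      rw [Finset.sum_apply]
      have h2 : ∀ j : {j : J // eval y (g j) = 0}, ((if j.1 = a then α else if j.1 = b then β
          else 0) • fun v => eval y (pderiv v (g j.1))) v =
          (if j = ⟨a, ha⟩ then α * eval y (pderiv v (g a)) else 0) +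
          (if j = ⟨b, hb⟩ then β * eval y (pderiv v (g b)) else 0) := by
        rintro ⟨j, hj⟩
        simp only [Pi.smul_apply, smul_eq_mul, Subtype.mk.injEq]
        by_cases h3 : j = a
        · subst h3
          rw [if_pos rfl, if_pos rfl, if_neg hab, add_zero]
        · rw [if_neg h3, if_neg h3, zero_add]
          by_cases h4 : j = b
          · subst h4
            rw [if_pos rfl, if_pos rfl]
          · rw [if_neg h4, if_neg h4, zero_mul]
      rw [Finset.sum_congr rfl fun j _ => h2 j, Finset.sum_add_distrib,
        Finset.sum_ite_eq' Finset.univ (⟨a, ha⟩ : {j : J // eval y (g j) = 0}),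
        Finset.sum_ite_eq' Finset.univ (⟨b, hb⟩ : {j : J // eval y (g j) = 0}),
        if_pos (Finset.mem_univ _), if_pos (Finset.mem_univ _)]
      exact h v)
    have h2 := h1 ⟨a, ha⟩
    have h3 := h1 ⟨b, hb⟩
    simp only [if_true] at h2
    rw [if_neg hab.symm, if_pos rfl] at h3
    exact ⟨h2, h3⟩
  have hind : ∀ α β : ℂ, (∀ v, v ≠ i → α * eval y (pderiv v (g a)) +
      β * eval y (pderiv v (g b)) = 0) → α = 0 ∧ β = 0 := by
    intro α β h
    refine hind0 α β fun v => ?_
    by_cases hv : v = i
    · subst hv
      have h1 := euler y (g a) (e a) (hg a)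
      have h2 := euler y (g b) (e b) (hg b)
      rw [ha, mul_zero] at h1
      rw [hb, mul_zero] at h2
      have h3 : ∑ u, y u * (α * eval y (pderiv u (g a)) + β * eval y (pderiv u (g b))) = 0 := by
        have h4 : ∀ u, y u * (α * eval y (pderiv u (g a)) + β * eval y (pderiv u (g b))) =
            α * (y u * eval y (pderiv u (g a))) + β * (y u * eval y (pderiv u (g b))) := by
          intro u
          ring
        rw [Finset.sum_congr rfl fun u _ => h4 u, Finset.sum_add_distrib, ← Finset.mul_sum,
          ← Finset.mul_sum, h1, h2]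
        simp
      rw [Finset.sum_eq_single v (fun u _ hu => by rw [h u hu, mul_zero])
        (fun h => absurd (Finset.mem_univ _) h)] at h3
      exact (mul_eq_zero.1 h3).resolve_left hi
    · exact h v hv
  have hker : ∀ x : V → ℂ, x i = 0 → eval x (lin y i (g a)) = 0 →
      eval x (lin y i (g b)) = 0 → x = 0 := by
    intro x hxi h1 h2
    rw [lin_eval] at h1 h2
    -- the two rows
    let r : Fin 2 → ({v : V // v ≠ i} → ℂ) := ![fun v => eval y (pderiv v.1 (g a)),
      fun v => eval y (pderiv v.1 (g b))]
    have hr : LinearIndependent ℂ r := by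
      rw [LinearIndependent.pair_iff]
      intro s t hst
      refine hind s t fun v hv => ?_
      have := congrFun hst ⟨v, hv⟩
      simpa using this
    have hcard : Fintype.card {v : V // v ≠ i} = 2 := by
      rw [Fintype.card_subtype_compl, hV]
      simp
    have hspan := hr.span_eq_top_of_card_eq_finrank (by
      rw [Fintype.card_fin, Module.finrank_fintype_fun_eq_card, hcard])
    let L : ({v : V // v ≠ i} → ℂ) →ₗ[ℂ] ℂ := ∑ v, (x v.1) • LinearMap.proj v
    have hL : ∀ z, L z = ∑ v : {v : V // v ≠ i}, x v.1 * z v := by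
      intro z
      simp [L, LinearMap.sum_apply]
    have hconv : ∀ q : V → ℂ, ∑ v : {v : V // v ≠ i}, x v.1 * q v.1 =
        ∑ v ∈ Finset.univ.erase i, q v * x v := by
      intro q
      rw [← Finset.sum_subtype (Finset.univ.erase i) (p := fun v => v ≠ i)
        (fun v => by simp) (fun v => x v * q v)]
      exact Finset.sum_congr rfl fun v _ => mul_comm _ _
    have hL0 : L = 0 := by
      refine LinearMap.ext fun z => ?_
      have hz : z ∈ Submodule.span ℂ (Set.range r) := by
        rw [hspan]
        trivial
      induction hz using Submodule.span_induction with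
      | mem z hz =>
        obtain ⟨k, rfl⟩ := hz
        rw [hL]
        fin_cases k
        · change ∑ v : {v : V // v ≠ i}, x v.1 * eval y (pderiv v.1 (g a)) = 0
          rw [hconv fun v => eval y (pderiv v (g a))]
          exact h1
        · change ∑ v : {v : V // v ≠ i}, x v.1 * eval y (pderiv v.1 (g b)) = 0
          rw [hconv fun v => eval y (pderiv v (g b))]
          exact h2
      | zero => simp
      | add z z' _ _ hz hz' => rw [map_add, hz, hz']; simp
      | smul t z _ hz => rw [map_smul, hz]; simp
    funext v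
    by_cases hv : v = i
    · subst hv
      exact hxi
    · have h3 := hL (Pi.single ⟨v, hv⟩ 1)
      rw [hL0, LinearMap.zero_apply, Finset.sum_eq_single ⟨v, hv⟩ (fun u _ hu => by
        rw [Pi.single_eq_of_ne hu, mul_zero]) (fun h => absurd (Finset.mem_univ _) h),
        Pi.single_eq_same, mul_one] at h3
      exact h3.symm
  have hpos : ∀ j, eval y (g j) = 0 → ∃ n, e j = n + 1 := by
    intro j hj
    rcases Nat.eq_zero_or_pos (e j) with h0 | h0
    · exfalso
      have h1 := hg j
      rw [h0] at h1
      have h2 : g j = C (coeff 0 (g j)) := totalDegree_eq_zero_iff_eq_C.1 (by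
        have := h1.totalDegree_le
        omega)
      rw [h2, eval_C] at hj
      have h3 := hnc.ne_zero ⟨j, by rw [h2, eval_C]; exact hj⟩
      apply h3
      funext v
      change eval y (pderiv v (g j)) = 0
      rw [h2, pderiv_C, map_zero]
    · exact ⟨e j - 1, by omega⟩
  obtain ⟨ea, hea⟩ := hpos a ha
  obtain ⟨eb, heb⟩ := hpos b hb
  set κ := c * ∏ j ∈ (Finset.univ.erase a).erase b, eval y (g j) with hκ
  have hκ0 : κ ≠ 0 := by
    refine mul_ne_zero hc (Finset.prod_ne_zero_iff.2 fun j hj => ?_)
    have h1 := Finset.mem_erase.1 hj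
    exact hother j (Finset.ne_of_mem_erase h1.2) h1.1
  set δ := eval y (homogeneousComponent (d + 1) (shift P f)) with hδ
  have hlc := low_node P y i f d hlow g e hg c hcone a b hab ha hb ea eb hea heb hd
  have hcub : IsWeightedHomogeneous (wz i) (cub y i (g a) (g b) κ δ) 6 := by
    have h1 : ∀ q : MvPolynomial V ℂ, IsWeightedHomogeneous (wz i) (lin y i q) 3 := by
      intro q
      unfold lin
      refine IsWeightedHomogeneous.sum _ _ _ fun v hv => ?_
      have h2 := (isWeightedHomogeneous_C (wz i) (eval y (pderiv v q))).mul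
        (isWeightedHomogeneous_X ℂ (wz i) v)
      rwa [zero_add, wz, if_neg (Finset.ne_of_mem_erase hv)] at h2
    unfold cub
    refine IsWeightedHomogeneous.add ?_ ?_
    · have h2 := (isWeightedHomogeneous_C (wz i) κ).mul ((h1 (g a)).mul (h1 (g b)))
      rwa [zero_add] at h2
    · have h2 := (isWeightedHomogeneous_C (wz i) δ).mul
        ((isWeightedHomogeneous_X ℂ (wz i) i).pow 3)
      rwa [zero_add, wz, if_pos rfl] at h2
  have hsum := sum_wz i
  rw [hV] at hsum
  refine ⟨aff P y i, affI P y i, 0, wz i, Bool, inferInstance, twoG y i (g a) (g b) κ δ,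
    fun j => if j = true then 6 else 2, fun j => if j = true then 1 else d - 2, 1, 1,
    isAut_aff P y i hi, ?_, by omega, ?_, ?_, one_ne_zero, ?_, one_ne_zero, ?_, ?_⟩
  · obtain ⟨v, v', hv⟩ := Fintype.exists_pair_of_one_lt_card (α := V) (by omega)
    refine ⟨v, v', hv, ?_, ?_⟩ <;> (unfold wz; split_ifs <;> omega)
  · intro j
    cases j
    · have := isWeightedHomogeneous_X ℂ (wz i) i
      rw [wz, if_pos rfl] at this
      exact this
    · exact hcub
  · intro j
    cases j
    · simp only [Bool.false_eq_true, if_false]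
      omega
    · simp
  · have h1 : (C 1 * ∏ j : Bool, twoG y i (g a) (g b) κ δ j ^ (if j = true then 1 else d - 2) :
        MvPolynomial V ℂ) = X i ^ (d - 2) * cub y i (g a) (g b) κ δ := by
      rw [Fintype.prod_bool, C_1, one_mul]
      simp only [Bool.false_eq_true, if_false, if_true, pow_one]
      exact mul_comm _ _
    rw [h1]
    exact hlc
  · intro v hv
    rw [← C_1, vars_C] at hv
    exact absurd hv (Finset.notMem_empty v)
  · intro x _
    rw [nc_two y i (g a) (g b) κ δ hκ0 hnext hind hker x]
    constructor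
    · intro hx
      by_contra hcon
      push Not at hcon
      apply hx
      funext v
      exact hcon v (by unfold wz; split_ifs <;> omega)
    · rintro ⟨v, -, hv⟩ rfl
      exact hv rfl

end Pool.Agent.L0h21.MD
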