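import Pool.Agent.L0h21.RW.FW

set_option autoImplicit false

/-! # Superisolated surface singularities whose tangent cones have normal crossings -/

namespace Pool.Agent.L0h21.MD

open MvPolynomial Pool.Agent.L0h21.RW

/-- `y` represents a singular point of the tangent cone at `P` of the surface `f = 0`; here `d` is
the multiplicity of `f` at `P`, and the tangent cone is the curve in `ℙ ^ 2` which is given by the
homogeneous component of degree `d` of `f(P + x)`. -/
def IsNode (f : MvPolynomial (Fin 3) ℂ) (P : Fin 3 → ℂ) (d : ℕ) (y : Fin 3 → ℂ) : Prop :=
  y ≠ 0 ∧ ∀ v, eval y (pderiv v (homogeneousComponent d (shift P f))) = 0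

/-- Let `f_k` be the homogeneous component of degree `k` of `f(P + x)`. The point `P` is a
superisolated singularity of multiplicity `d` of the surface `f = 0`, and its tangent cone is a curve
with simple normal crossings: the components below `f_d` vanish, the factors `g j` of `f_d` are smooth
curves in `ℙ ^ 2` which cross normally, and `f_(d+1)` does not vanish at the singular points of the
tangent cone. The case where `d = 2` and the tangent cone is singular (`A_2`) is excluded. -/
structure IsSuperisolated (f : MvPolynomial (Fin 3) ℂ) (P : Fin 3 → ℂ) (d : ℕ) : Prop where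
  /-- the point is singular -/
  two : 2 ≤ d
  /-- the multiplicity is at least `d` -/
  low : ∀ a < d, homogeneousComponent a (shift P f) = 0
  /-- the tangent cone has simple normal crossings -/
  cone : ∃ (J : Type) (_ : Fintype J) (g : J → MvPolynomial (Fin 3) ℂ) (e : J → ℕ) (c : ℂ),
    c ≠ 0 ∧ (∀ j, (g j).IsHomogeneous (e j)) ∧
    homogeneousComponent d (shift P f) = C c * ∏ j, g j ∧
    ∀ y, y ≠ 0 → NormalCrossingsAt g y
  /-- `f_(d+1)` does not vanish at the nodes -/
  next : ∀ y, IsNode f P d y → 3 ≤ d ∧ eval y (homogeneousComponent (d + 1) (shift P f)) ≠ 0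

end Pool.Agent.L0h21.MD
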