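import Pool.Agent.L0h21.MD.S4
import Pool.Agent.L0h21.MD.SI

/-! The divisors over a superisolated singularity. -/

set_option autoImplicit false
set_option linter.unusedSectionVars false

namespace Pool.Agent.L0h21.MD

open MvPolynomial Pool.Agent.L0h21.SN Pool.Agent.L0h21.RW

variable {V : Type} [Fintype V] [DecidableEq V]

/-- Three independent vectors are not orthogonal to the same vector `y ≠ 0`. -/
theorem three_indep (hV : Fintype.card V = 3) (y : V → ℂ) (hy : y ≠ 0) (r : Fin 3 → V → ℂ)
    (hr : LinearIndependent ℂ r) (h : ∀ k, ∑ v, y v * r k v = 0) : False := by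
  have hspan := hr.span_eq_top_of_card_eq_finrank (by
    rw [Fintype.card_fin, Module.finrank_fintype_fun_eq_card, hV])
  let L : (V → ℂ) →ₗ[ℂ] ℂ := ∑ v, (y v) • LinearMap.proj v
  have hL : ∀ z, L z = ∑ v, y v * z v := by
    intro z
    simp [L, LinearMap.sum_apply]
  have hL0 : L = 0 := by
    refine LinearMap.ext fun z => ?_
    have hz : z ∈ Submodule.span ℂ (Set.range r) := by
      rw [hspan]
      trivial
    induction hz using Submodule.span_induction with
    | mem z hz =>
      obtain ⟨k, rfl⟩ := hz
      rw [hL]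
      exact h k
    | zero => simp
    | add z z' _ _ hz hz' => rw [map_add, hz, hz']; simp
    | smul t z _ hz => rw [map_smul, hz]; simp
  apply hy
  funext v
  have h3 := hL (Pi.single v 1)
  rw [hL0, LinearMap.zero_apply, Finset.sum_eq_single v (fun u _ hu => by
    rw [Pi.single_eq_of_ne hu, mul_zero]) (fun h => absurd (Finset.mem_univ _) h),
    Pi.single_eq_same, mul_one] at h3
  exact h3.symm

/-- The components through a node. -/
theorem two_comp (hV : Fintype.card V = 3) {J : Type} [Fintype J] [DecidableEq J]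
    (g : J → MvPolynomial V ℂ) (e : J → ℕ) (hg : ∀ j, (g j).IsHomogeneous (e j)) (c : ℂ)
    (hc : c ≠ 0) (G : MvPolynomial V ℂ) (d : ℕ) (hd : 0 < d) (hG : G.IsHomogeneous d)
    (hcone : G = C c * ∏ j, g j) (y : V → ℂ) (hy : y ≠ 0) (hnc : NormalCrossingsAt g y)
    (hgrad : ∀ v, eval y (pderiv v G) = 0) :
    ∃ a b : J, a ≠ b ∧ eval y (g a) = 0 ∧ eval y (g b) = 0 ∧
      ∀ j, j ≠ a → j ≠ b → eval y (g j) ≠ 0 := by
  classical
  have h0 : eval y G = 0 := by
    have h1 := euler y G d hG
    rw [Finset.sum_eq_zero fun v _ => by rw [hgrad v, mul_zero]] at h1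
    exact (mul_eq_zero.1 h1.symm).resolve_left (by exact_mod_cast hd.ne')
  obtain ⟨a, ha⟩ : ∃ a, eval y (g a) = 0 := by
    rw [hcone, map_mul, eval_C, map_prod] at h0
    obtain ⟨a, -, ha⟩ := Finset.prod_eq_zero_iff.1 ((mul_eq_zero.1 h0).resolve_left hc)
    exact ⟨a, ha⟩
  obtain ⟨b, hab, hb⟩ : ∃ b, b ≠ a ∧ eval y (g b) = 0 := by
    have h1 := hnc.ne_zero ⟨a, ha⟩
    obtain ⟨v, hv⟩ : ∃ v, eval y (pderiv v (g a)) ≠ 0 := by
      by_contra hcon
      push Not at hcon
      exact h1 (funext hcon)
    have h2 := hgrad v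
    rw [hcone, ← Finset.mul_prod_erase _ _ (Finset.mem_univ a), pderiv_C_mul, Derivation.leibniz,
      smul_eq_mul, smul_eq_mul, map_mul, map_add, map_mul, map_mul, ha, zero_mul, zero_add,
      eval_C, map_prod] at h2
    have h3 := (mul_eq_zero.1 ((mul_eq_zero.1 h2).resolve_left hc)).resolve_right hv
    obtain ⟨b, hb, hb0⟩ := Finset.prod_eq_zero_iff.1 h3
    exact ⟨b, Finset.ne_of_mem_erase hb, hb0⟩
  refine ⟨a, b, hab.symm, ha, hb, fun k hka hkb hk => ?_⟩
  -- a third component
  let t : Fin 3 → {j : J // eval y (g j) = 0} := ![⟨a, ha⟩, ⟨b, hb⟩, ⟨k, hk⟩]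
  have ht : Function.Injective t := by
    intro u v huv
    fin_cases u <;> fin_cases v <;> simp [t] at huv ⊢
    · exact absurd huv.symm hab
    · exact absurd huv.symm hka
    · exact absurd huv hab
    · exact absurd huv.symm hkb
    · exact absurd huv hka
    · exact absurd huv hkb
  have h1 : LinearIndependent ℂ ((fun (j : {j : J // eval y (g j) = 0}) (v : V) =>
      eval y (pderiv v (g j.1))) ∘ t) := LinearIndependent.comp hnc t ht
  refine three_indep hV y hy _ h1 fun u => ?_
  have h2 := euler y (g (t u).1) (e (t u).1) (hg _)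
  rw [(t u).2, mul_zero] at h2
  exact h2

/-- **The second divisor over a superisolated singularity.** -/
theorem cross_two (f : MvPolynomial (Fin 3) ℂ) (P : Fin 3 → ℂ) (d : ℕ)
    (H : IsSuperisolated f P d) (y : Fin 3 → ℂ) (hy : IsNode f P d y) :
    IsCrossingDivisor f (2 * d + 2) 8 := by
  classical
  obtain ⟨J, iJ, g, e, c, hc, hg, hcone, hnc⟩ := H.cone
  obtain ⟨h3, hnext⟩ := H.next y hy
  have hG := homogeneousComponent_isHomogeneous d (shift P f)
  obtain ⟨a, b, hab, ha, hb, hother⟩ := two_comp (Fintype.card_fin 3) g e hg c hc _ d (by omega) hG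
    hcone y hy.1 (hnc y hy.1) hy.2
  have hprod : (C c * ∏ j, g j).IsHomogeneous (∑ j, e j) := by
    have h1 : (∏ j, g j).IsHomogeneous (∑ j, e j) := IsHomogeneous.prod _ _ _ fun j _ => hg j
    exact h1.C_mul c
  have hne : ∀ j, g j ≠ 0 := by
    intro j h0
    have h1 : eval y (g j) = 0 := by rw [h0, map_zero]
    apply (hnc y hy.1).ne_zero ⟨j, h1⟩
    funext v
    change eval y (pderiv v (g j)) = 0
    rw [h0, map_zero, map_zero]
  have hd : d = ∑ j, e j := by
    rw [hcone] at hG
    exact hG.inj_right hprod (mul_ne_zero (C_ne_zero.2 hc) (Finset.prod_ne_zero_iff.2 fun j _ =>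
      hne j))
  exact cross_node (Fintype.card_fin 3) P y f d h3 H.low g e hg c hc hcone hd (hnc y hy.1) a b hab
    hother ha hb hy.1 hnext

theorem hom_zero {G : MvPolynomial V ℂ} {e : ℕ} (h : G.IsHomogeneous e) (he : 0 < e) :
    eval (0 : V → ℂ) G = 0 := by
  rw [MvPolynomial.eval_zero, constantCoeff_eq]
  by_contra h0
  have := hom_deg h h0
  rw [map_zero] at this
  omega

/-- **The first divisor over a superisolated singularity.** -/
theorem cross_one (f : MvPolynomial (Fin 3) ℂ) (P : Fin 3 → ℂ) (d : ℕ)
    (H : IsSuperisolated f P d) : d = 3 ∨ IsCrossingDivisor f d 3 := by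
  classical
  have hG := homogeneousComponent_isHomogeneous d (shift P f)
  have h2d := H.two
  have hX : IsAut (X : Fin 3 → MvPolynomial (Fin 3) ℂ) X :=
    ⟨fun v => by rw [aeval_X], fun v => by rw [aeval_X]⟩
  have hfX : aeval (X : Fin 3 → MvPolynomial (Fin 3) ℂ) f = f := aeval_X_left_apply f
  have hone : ∀ v ∈ (1 : MvPolynomial (Fin 3) ℂ).vars, (fun _ : Fin 3 => 1) v = 0 := by
    intro v hv
    rw [← C_1, vars_C] at hv
    exact absurd hv (Finset.notMem_empty v)
  by_cases hnode : ∃ y, IsNode f P d y
  · obtain ⟨y, hy⟩ := hnode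
    obtain ⟨h3, -⟩ := H.next y hy
    obtain ⟨J, iJ, g, e, c, hc, hg, hcone, hnc⟩ := H.cone
    have hprod : (C c * ∏ j, g j).IsHomogeneous (∑ j, e j) := by
      have h1 : (∏ j, g j).IsHomogeneous (∑ j, e j) := IsHomogeneous.prod _ _ _ fun j _ => hg j
      exact h1.C_mul c
    have hne : ∀ j, g j ≠ 0 := by
      intro j h0
      have h1 : eval y (g j) = 0 := by rw [h0, map_zero]
      apply (hnc y hy.1).ne_zero ⟨j, h1⟩
      funext v
      change eval y (pderiv v (g j)) = 0
      rw [h0, map_zero, map_zero]
    have hd : d = ∑ j, e j := by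
      rw [hcone] at hG
      exact hG.inj_right hprod (mul_ne_zero (C_ne_zero.2 hc) (Finset.prod_ne_zero_iff.2 fun j _ =>
        hne j))
    by_cases h0 : NormalCrossingsAt g 0
    · left
      -- linear factors
      have hle : ∀ j, e j ≤ 1 := by
        intro j
        by_contra hj
        have h1 : eval 0 (g j) = 0 := hom_zero (hg j) (by omega)
        apply h0.ne_zero ⟨j, h1⟩
        funext v
        exact hom_zero (hg j).pderiv (by omega)
      let A := {j : J // eval 0 (g j) = 0}
      have hA : Fintype.card A ≤ 3 := by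
        have h1 := LinearIndependent.fintype_card_le_finrank h0
        rwa [Module.finrank_fintype_fun_eq_card, Fintype.card_fin] at h1
      have h4 : ∑ j, e j ≤ Fintype.card A := by
        rw [Fintype.card_subtype, Finset.card_filter]
        refine Finset.sum_le_sum fun j _ => ?_
        split_ifs with h5
        · exact hle j
        · have h6 : ¬ 0 < e j := fun h7 => h5 (hom_zero (hg j) h7)
          omega
      omega
    · right
      refine ⟨X, X, P, fun _ => 1, J, iJ, g, e, fun _ => 1, c, 1, hX, ⟨0, 1, by decide, one_pos,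
        one_pos⟩, by simp, fun j => hg j, fun _ => one_pos, hc, ?_, one_ne_zero, hone, ?_⟩
      · rw [hfX]
        refine ⟨H.low, ?_⟩
        change homogeneousComponent d (shift P f) = _
        rw [hcone]
        congr 1
        exact Finset.prod_congr rfl fun j _ => (pow_one _).symm
      · intro x _
        constructor
        · intro hx
          by_contra hcon
          push Not at hcon
          apply h0
          have : x = 0 := funext fun v => hcon v one_pos
          rwa [this] at hx
        · rintro ⟨v, -, hv⟩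
          exact hnc x fun h => hv (by rw [h]; rfl)
  · right
    push Not at hnode
    set G := homogeneousComponent d (shift P f) with hGd
    refine ⟨X, X, P, fun _ => 1, Unit, inferInstance, fun _ => G, fun _ => d, fun _ => 1, 1, 1, hX,
      ⟨0, 1, by decide, one_pos, one_pos⟩, by simp, fun _ => hG, fun _ => one_pos, one_ne_zero, ?_,
      one_ne_zero, hone, ?_⟩
    · rw [hfX]
      refine ⟨H.low, ?_⟩
      change homogeneousComponent d (shift P f) = _
      rw [← hGd]
      simp
    · intro x _
      constructor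
      · intro hx
        by_contra hcon
        push Not at hcon
        have h1 : x = 0 := funext fun v => hcon v one_pos
        subst h1
        apply hx.ne_zero ⟨(), hom_zero hG (by omega)⟩
        funext v
        exact hom_zero hG.pderiv (by omega)
      · rintro ⟨v, -, hv⟩
        have hx0 : x ≠ 0 := fun h => hv (by rw [h]; rfl)
        unfold NormalCrossingsAt
        rw [Fintype.linearIndependent_iff]
        intro a ha j
        obtain ⟨u, hu⟩ : ∃ u, eval x (pderiv u G) ≠ 0 := by
          by_contra hcon
          push Not at hcon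
          exact hnode x ⟨hx0, hcon⟩
        have h1 := congrFun ha u
        rw [Finset.sum_apply, Finset.sum_eq_single j (fun i _ hi => absurd (Subsingleton.elim i j) hi)
          (fun h => absurd (Finset.mem_univ _) h)] at h1
        simpa [hu] using h1

end Pool.Agent.L0h21.MD
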