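import Pool.Agent.L0h21.RW.FW

set_option autoImplicit false

/-! # Superisolated divisors on the affine space of dimension three -/

namespace Pool.Agent.L0h21.MD

open MvPolynomial Pool.Agent.L0h21.RW

/-- `y` represents a singular point of the tangent cone at `P` of the surface `f = 0`; here `d` is
the multiplicity of `f` at `P`, and the tangent cone is the curve in `ℙ ^ 2` which is given by the
homogeneous component of degree `d` of `f(P + x)`. -/
def IsNodeAt (f : MvPolynomial (Fin 3) ℂ) (P : Fin 3 → ℂ) (d : ℕ) (y : Fin 3 → ℂ) : Prop :=
  y ≠ 0 ∧ eval y (homogeneousComponent d (shift P f)) = 0 ∧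
    ∀ v, eval y (pderiv v (homogeneousComponent d (shift P f))) = 0

/-- The surfaces `f j = 0`, `j : J`, are superisolated at `P`, of multiplicities `d j`, and their
tangent cones cross normally. In detail: let `f_(j,k)` be the homogeneous component of degree `k` of
`f j (P + x)`. Then `f_(j,k) = 0` for `k < d j`; the `f_(j, d j) = c j ∏_{π k = j} g k` are products of
equations `g k` of smooth curves in `ℙ ^ 2` (up to constants), all of which, for all `j`, cross
normally; and `f_(j, d j + 1)` does not vanish at the singular points of the curve `f_(j, d j) = 0` in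
`ℙ ^ 2`. Moreover, the `g k` do not have normal crossings at the origin of `ℂ ^ 3` (that is, they are
not independent linear forms). -/
structure IsSuperisolatedAt {J : Type} (f : J → MvPolynomial (Fin 3) ℂ)
    (P : Fin 3 → ℂ) (d : J → ℕ) : Prop where
  /-- the multiplicity of `f j` at `P` is at least `d j` -/
  low : ∀ j, ∀ a < d j, homogeneousComponent a (shift P (f j)) = 0
  /-- the tangent cones have simple normal crossings, but not at the vertex -/
  cone : ∃ (K : Type) (_ : Fintype K) (π : K → J) (g : K → MvPolynomial (Fin 3) ℂ) (e : K → ℕ)
    (c : J → ℂ), (∀ j, c j ≠ 0) ∧ (∀ k, (g k).IsHomogeneous (e k)) ∧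
    (∀ j, homogeneousComponent (d j) (shift P (f j)) =
      open Classical in C (c j) * ∏ k with π k = j, g k) ∧
    (∀ y, y ≠ 0 → NormalCrossingsAt g y) ∧ ¬ NormalCrossingsAt g 0
  /-- the next component does not vanish at the singular points of the tangent cone -/
  next : ∀ j y, IsNodeAt (f j) P (d j) y →
    eval y (homogeneousComponent (d j + 1) (shift P (f j))) ≠ 0

end Pool.Agent.L0h21.MD
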