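import Pool.Agent.L0h21.MD.S5
import Pool.Agent.L0h21.MD.SJ

/-! Several components. -/

set_option autoImplicit false
set_option linter.unusedSectionVars false

namespace Pool.Agent.L0h21.MD

open MvPolynomial Pool.Agent.L0h21.SN Pool.Agent.L0h21.RW

variable {V : Type} [Fintype V] [DecidableEq V]

variable {K : Type} [Fintype K] [DecidableEq K]

/-- The low form of the tangent cone at a node. -/
theorem low_coneT (y : V → ℂ) (i : V) (g : K → MvPolynomial V ℂ) (e : K → ℕ)
    (hg : ∀ j, (g j).IsHomogeneous (e j)) (c : ℂ) (U : Finset K) (a b : K) (hab : a ≠ b)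
    (haU : a ∈ U) (hbU : b ∈ U)
    (ha : eval y (g a) = 0) (hb : eval y (g b) = 0) (ea eb : ℕ) (hea : e a = ea + 1)
    (heb : e b = eb + 1) (d : ℕ) (hd : d = ∑ j ∈ U, e j) :
    2 ≤ d ∧ LowC (wz i) (2 * d + 2) (aeval (phi y i) (C c * ∏ j ∈ U, g j))
      (X i ^ (d - 2) * (C (c * ∏ j ∈ (U.erase a).erase b, eval y (g j)) *
        (lin y i (g a) * lin y i (g b)))) := by
  classical
  set T := (U.erase a).erase b with hT
  have hbT : b ∈ U.erase a := Finset.mem_erase.2 ⟨hab.symm, hbU⟩
  have hsum : ∑ j ∈ U, e j = ∑ j ∈ T, e j + (eb + 1) + (ea + 1) := by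
    rw [hT, ← heb, ← hea, Finset.sum_erase_add _ _ hbT, Finset.sum_erase_add _ _ haU]
  have hprod : ∏ j ∈ U, g j = (∏ j ∈ T, g j) * g b * g a := by
    rw [hT, Finset.prod_erase_mul _ _ hbT, Finset.prod_erase_mul _ _ haU]
  have h1 : LowC (wz i) (∑ j ∈ T, 2 * e j) (∏ j ∈ T, aeval (phi y i) (g j))
      (∏ j ∈ T, (C (eval y (g j)) * X i ^ e j)) := by
    refine LowC.prod T fun j _ => ?_
    have := low0 (aphi_hom y i (hg j)) i
    rwa [aphi_eval] at this
  have h2 : ∀ (k : K) (n : ℕ), e k = n + 1 → eval y (g k) = 0 →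
      LowC (wz i) (2 * n + 3) (aeval (phi y i) (g k)) (X i ^ n * lin y i (g k)) := by
    intro k n hn hk
    have h3 := aphi_hom y i (hg k)
    rw [hn] at h3
    have h4 := low1 h3 i (by rw [aphi_eval, hk])
    have h5 : ∑ v ∈ Finset.univ.erase i, C (eval (Pi.single i 1)
        (pderiv v (aeval (phi y i) (g k)))) * X v = lin y i (g k) := by
      unfold lin
      refine Finset.sum_congr rfl fun v hv => ?_
      rw [aphi_pderiv y i v (Finset.ne_of_mem_erase hv)]
    rwa [h5] at h4
  have h3 := ((LowC.C (w := wz i) c).mul ((h1.mul (h2 b eb heb hb)).mul (h2 a ea hea ha)))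
  refine ⟨by omega, ?_⟩
  have e1 : 0 + (∑ j ∈ T, 2 * e j + (2 * eb + 3) + (2 * ea + 3)) = 2 * d + 2 := by
    rw [← Finset.mul_sum]
    omega
  rw [e1] at h3
  have e2 : aeval (phi y i) (C c * ∏ j ∈ U, g j) = C c * ((∏ j ∈ T, aeval (phi y i) (g j)) *
      aeval (phi y i) (g b) * aeval (phi y i) (g a)) := by
    rw [hprod, map_mul, map_mul, map_mul, map_prod, aeval_C, algebraMap_eq]
  have e3 : X i ^ (d - 2) * (C (c * ∏ j ∈ T, eval y (g j)) * (lin y i (g a) * lin y i (g b))) =
      C c * ((∏ j ∈ T, (C (eval y (g j)) * X i ^ e j)) * (X i ^ eb * lin y i (g b)) *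
        (X i ^ ea * lin y i (g a))) := by
    have e4 : d - 2 = ∑ j ∈ T, e j + eb + ea := by omega
    have e5 : (C (c * ∏ j ∈ T, eval y (g j)) : MvPolynomial V ℂ) =
        C c * ∏ j ∈ T, C (eval y (g j)) := by
      rw [C_mul]
      congr 1
      exact map_prod C _ _
    rw [Finset.prod_mul_distrib, Finset.prod_pow_eq_pow_sum, e5, e4, pow_add, pow_add]
    ring
  rw [e2, e3]
  exact h3

/-- The remainder. -/
theorem rest_ord (P y : V → ℂ) (i : V) (f : MvPolynomial V ℂ) (d : ℕ)
    (hlow : ∀ a < d, homogeneousComponent a (shift P f) = 0) :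
    OrdGE (wz i) (2 * (d + 1)) (aeval (phi y i)
      (shift P f - homogeneousComponent d (shift P f))) := by
  refine aphi_ord y i (d + 1) _ fun m hm => ?_
  rw [coeff_sub, coeff_homogeneousComponent] at hm
  by_contra hlt
  have h4 : Finsupp.degree m < d ∨ Finsupp.degree m = d := by omega
  rcases h4 with h4 | h4
  · have h5 := congrArg (coeff m) (hlow _ h4)
    rw [coeff_homogeneousComponent, if_pos rfl, coeff_zero] at h5
    rw [h5] at hm
    simp at hm
  · rw [if_pos h4] at hm
    simp at hm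

/-- The low form of a component whose tangent cone does not pass through the point. -/
theorem low_other (P y : V → ℂ) (i : V) (f : MvPolynomial V ℂ) (d : ℕ)
    (hlow : ∀ a < d, homogeneousComponent a (shift P f) = 0) :
    LowC (wz i) (2 * d) (shift 0 (aeval (aff P y i) f))
      (C (eval y (homogeneousComponent d (shift P f))) * X i ^ d) := by
  rw [shift_aff]
  have h2 := low0 (aphi_hom y i (homogeneousComponent_isHomogeneous d (shift P f))) i
  rw [aphi_eval] at h2
  have h3 := rest_ord P y i f d hlow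
  have h4 : aeval (phi y i) (shift P f) = aeval (phi y i) (homogeneousComponent d (shift P f)) +
      aeval (phi y i) (shift P f - homogeneousComponent d (shift P f)) := by
    rw [← map_add]
    congr 1
    ring
  rw [h4]
  refine ⟨h2.1.add (h3.mono (by omega)), ?_⟩
  rw [map_add, h2.2, h3 (2 * d) (by omega), add_zero]

/-- The low form of a component at a node. -/
theorem low_nodeT (P y : V → ℂ) (i : V) (f : MvPolynomial V ℂ) (d : ℕ)
    (hlow : ∀ a < d, homogeneousComponent a (shift P f) = 0)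
    (g : K → MvPolynomial V ℂ) (e : K → ℕ) (hg : ∀ j, (g j).IsHomogeneous (e j)) (c : ℂ)
    (U : Finset K) (hcone : homogeneousComponent d (shift P f) = C c * ∏ j ∈ U, g j) (a b : K)
    (hab : a ≠ b) (haU : a ∈ U) (hbU : b ∈ U)
    (ha : eval y (g a) = 0) (hb : eval y (g b) = 0) (ea eb : ℕ) (hea : e a = ea + 1)
    (heb : e b = eb + 1) (hd : d = ∑ j ∈ U, e j) :
    2 ≤ d ∧ LowC (wz i) (2 * d + 2) (shift 0 (aeval (aff P y i) f))
      (X i ^ (d - 2) * cub y i (g a) (g b)
        (c * ∏ j ∈ (U.erase a).erase b, eval y (g j))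
        (eval y (homogeneousComponent (d + 1) (shift P f)))) := by
  obtain ⟨h2d, h1⟩ := low_coneT y i g e hg c U a b hab haU hbU ha hb ea eb hea heb d hd
  refine ⟨h2d, ?_⟩
  rw [shift_aff]
  set S := shift P f with hS
  have h2 := low0 (aphi_hom y i (homogeneousComponent_isHomogeneous (d + 1) S)) i
  rw [aphi_eval] at h2
  have h3 : OrdGE (wz i) (2 * (d + 2)) (aeval (phi y i)
      (S - homogeneousComponent d S - homogeneousComponent (d + 1) S)) := by
    refine aphi_ord y i (d + 2) _ fun m hm => ?_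
    rw [coeff_sub, coeff_sub, coeff_homogeneousComponent, coeff_homogeneousComponent] at hm
    by_contra hlt
    have h4 : Finsupp.degree m < d ∨ Finsupp.degree m = d ∨ Finsupp.degree m = d + 1 := by omega
    rcases h4 with h4 | h4 | h4
    · have h5 := congrArg (coeff m) (hlow _ h4)
      rw [coeff_homogeneousComponent, if_pos rfl, coeff_zero] at h5
      rw [h5] at hm
      simp at hm
    · rw [if_pos h4, if_neg (by omega)] at hm
      simp at hm
    · rw [if_neg (by omega), if_pos h4] at hm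
      simp at hm
  have h4 : aeval (phi y i) S = aeval (phi y i) (C c * ∏ j ∈ U, g j) +
      aeval (phi y i) (homogeneousComponent (d + 1) S) + aeval (phi y i)
        (S - homogeneousComponent d S - homogeneousComponent (d + 1) S) := by
    rw [← hcone, ← map_add, ← map_add]
    congr 1
    ring
  rw [h4]
  have h5 : 2 * (d + 1) = 2 * d + 2 := by ring
  rw [h5] at h2
  refine ⟨(h1.1.add h2.1).add (h3.mono (by omega)), ?_⟩
  rw [map_add, map_add, h1.2, h2.2, h3 (2 * d + 2) (by omega), add_zero]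
  unfold cub
  have h6 : (X i : MvPolynomial V ℂ) ^ (d + 1) = X i ^ (d - 2) * X i ^ 3 := by
    rw [← pow_add]
    congr 1
    omega
  rw [h6]
  ring

/-- The components through a node. -/
theorem two_compT (hV : Fintype.card V = 3)
    (g : K → MvPolynomial V ℂ) (e : K → ℕ) (hg : ∀ j, (g j).IsHomogeneous (e j)) (c : ℂ)
    (hc : c ≠ 0) (G : MvPolynomial V ℂ)
    (U : Finset K) (hcone : G = C c * ∏ j ∈ U, g j) (y : V → ℂ) (hy : y ≠ 0)
    (hnc : NormalCrossingsAt g y) (h0 : eval y G = 0) (hgrad : ∀ v, eval y (pderiv v G) = 0) :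
    ∃ a b : K, a ≠ b ∧ a ∈ U ∧ b ∈ U ∧ eval y (g a) = 0 ∧ eval y (g b) = 0 ∧
      ∀ j, j ≠ a → j ≠ b → eval y (g j) ≠ 0 := by
  classical
  obtain ⟨a, haU, ha⟩ : ∃ a ∈ U, eval y (g a) = 0 := by
    rw [hcone, map_mul, eval_C, map_prod] at h0
    exact Finset.prod_eq_zero_iff.1 ((mul_eq_zero.1 h0).resolve_left hc)
  obtain ⟨b, hbU, hab, hb⟩ : ∃ b ∈ U, b ≠ a ∧ eval y (g b) = 0 := by
    have h1 := hnc.ne_zero ⟨a, ha⟩
    obtain ⟨v, hv⟩ : ∃ v, eval y (pderiv v (g a)) ≠ 0 := by
      by_contra hcon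
      push Not at hcon
      exact h1 (funext hcon)
    have h2 := hgrad v
    rw [hcone, ← Finset.mul_prod_erase _ _ haU, pderiv_C_mul, Derivation.leibniz,
      smul_eq_mul, smul_eq_mul, map_mul, map_add, map_mul, map_mul, ha, zero_mul, zero_add,
      eval_C, map_prod] at h2
    have h3 := (mul_eq_zero.1 ((mul_eq_zero.1 h2).resolve_left hc)).resolve_right hv
    obtain ⟨b, hb, hb0⟩ := Finset.prod_eq_zero_iff.1 h3
    exact ⟨b, Finset.mem_of_mem_erase hb, Finset.ne_of_mem_erase hb, hb0⟩
  refine ⟨a, b, hab.symm, haU, hbU, ha, hb, fun k hka hkb hk => ?_⟩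
  -- a third component
  let t : Fin 3 → {j : K // eval y (g j) = 0} := ![⟨a, ha⟩, ⟨b, hb⟩, ⟨k, hk⟩]
  have ht : Function.Injective t := by
    intro u v huv
    fin_cases u <;> fin_cases v <;> simp [t] at huv ⊢
    · exact absurd huv.symm hab
    · exact absurd huv.symm hka
    · exact absurd huv hab
    · exact absurd huv.symm hkb
    · exact absurd huv hka
    · exact absurd huv hkb
  have h1 : LinearIndependent ℂ ((fun (j : {j : K // eval y (g j) = 0}) (v : V) =>
      eval y (pderiv v (g j.1))) ∘ t) := LinearIndependent.comp hnc t ht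
  refine three_indep hV y hy _ h1 fun u => ?_
  have h2 := euler y (g (t u).1) (e (t u).1) (hg _)
  rw [(t u).2, mul_zero] at h2
  exact h2

end Pool.Agent.L0h21.MD
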