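import Pool.Agent.L0h21.MD.S6

/-! The divisors over a superisolated point of several surfaces. -/

set_option autoImplicit false
set_option linter.unusedSectionVars false

namespace Pool.Agent.L0h21.MD

open MvPolynomial Pool.Agent.L0h21.SN Pool.Agent.L0h21.RW

section indep

variable {V : Type} [Fintype V] [DecidableEq V] {K : Type} [Fintype K] [DecidableEq K]

/-- The tangent lines at a node. -/
theorem node_indep (hV : Fintype.card V = 3) (y : V → ℂ)
    (g : K → MvPolynomial V ℂ) (e : K → ℕ) (hg : ∀ j, (g j).IsHomogeneous (e j))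
    (hnc : NormalCrossingsAt g y) (a b : K) (hab : a ≠ b) (ha : eval y (g a) = 0)
    (hb : eval y (g b) = 0) (i : V) (hi : y i ≠ 0) :
    (∀ α β : ℂ, (∀ v, v ≠ i → α * eval y (pderiv v (g a)) +
      β * eval y (pderiv v (g b)) = 0) → α = 0 ∧ β = 0) ∧
    ∀ x : V → ℂ, x i = 0 → eval x (lin y i (g a)) = 0 → eval x (lin y i (g b)) = 0 → x = 0 := by
  classical
  have hind0 : ∀ α β : ℂ, (∀ v, α * eval y (pderiv v (g a)) + β * eval y (pderiv v (g b)) = 0) →
      α = 0 ∧ β = 0 := by
    intro α β h
    have h1 := (Fintype.linearIndependent_iff.1 hnc)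
      (fun j => if j.1 = a then α else if j.1 = b then β else 0) (by
      funext v
      rw [Finset.sum_apply]
      have h2 : ∀ j : {j : K // eval y (g j) = 0}, ((if j.1 = a then α else if j.1 = b then β
          else 0) • fun v => eval y (pderiv v (g j.1))) v =
          (if j = ⟨a, ha⟩ then α * eval y (pderiv v (g a)) else 0) +
          (if j = ⟨b, hb⟩ then β * eval y (pderiv v (g b)) else 0) := by
        rintro ⟨j, hj⟩
        simp only [Pi.smul_apply, smul_eq_mul, Subtype.mk.injEq]
        by_cases h3 : j = a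
        · subst h3
          rw [if_pos rfl, if_pos rfl, if_neg hab, add_zero]
        · rw [if_neg h3, if_neg h3, zero_add]
          by_cases h4 : j = b
          · subst h4
            rw [if_pos rfl, if_pos rfl]
          · rw [if_neg h4, if_neg h4, zero_mul]
      rw [Finset.sum_congr rfl fun j _ => h2 j, Finset.sum_add_distrib,
        Finset.sum_ite_eq' Finset.univ (⟨a, ha⟩ : {j : K // eval y (g j) = 0}),
        Finset.sum_ite_eq' Finset.univ (⟨b, hb⟩ : {j : K // eval y (g j) = 0}),
        if_pos (Finset.mem_univ _), if_pos (Finset.mem_univ _)]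
      exact h v)
    have h2 := h1 ⟨a, ha⟩
    have h3 := h1 ⟨b, hb⟩
    simp only [if_true] at h2
    rw [if_neg hab.symm, if_pos rfl] at h3
    exact ⟨h2, h3⟩
  have hind : ∀ α β : ℂ, (∀ v, v ≠ i → α * eval y (pderiv v (g a)) +
      β * eval y (pderiv v (g b)) = 0) → α = 0 ∧ β = 0 := by
    intro α β h
    refine hind0 α β fun v => ?_
    by_cases hv : v = i
    · subst hv
      have h1 := euler y (g a) (e a) (hg a)
      have h2 := euler y (g b) (e b) (hg b)
      rw [ha, mul_zero] at h1
      rw [hb, mul_zero] at h2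
      have h3 : ∑ u, y u * (α * eval y (pderiv u (g a)) + β * eval y (pderiv u (g b))) = 0 := by
        have h4 : ∀ u, y u * (α * eval y (pderiv u (g a)) + β * eval y (pderiv u (g b))) =
            α * (y u * eval y (pderiv u (g a))) + β * (y u * eval y (pderiv u (g b))) := by
          intro u
          ring
        rw [Finset.sum_congr rfl fun u _ => h4 u, Finset.sum_add_distrib, ← Finset.mul_sum,
          ← Finset.mul_sum, h1, h2]
        simp
      rw [Finset.sum_eq_single v (fun u _ hu => by rw [h u hu, mul_zero])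
        (fun h => absurd (Finset.mem_univ _) h)] at h3
      exact (mul_eq_zero.1 h3).resolve_left hi
    · exact h v hv
  refine ⟨hind, ?_⟩
  intro x hxi h1 h2
  rw [lin_eval] at h1 h2
  -- the two rows
  let r : Fin 2 → ({v : V // v ≠ i} → ℂ) := ![fun v => eval y (pderiv v.1 (g a)),
    fun v => eval y (pderiv v.1 (g b))]
  have hr : LinearIndependent ℂ r := by
    rw [LinearIndependent.pair_iff]
    intro s t hst
    refine hind s t fun v hv => ?_
    have := congrFun hst ⟨v, hv⟩
    simpa using this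
  have hcard : Fintype.card {v : V // v ≠ i} = 2 := by
    rw [Fintype.card_subtype_compl, hV]
    simp
  have hspan := hr.span_eq_top_of_card_eq_finrank (by
    rw [Fintype.card_fin, Module.finrank_fintype_fun_eq_card, hcard])
  let L : ({v : V // v ≠ i} → ℂ) →ₗ[ℂ] ℂ := ∑ v, (x v.1) • LinearMap.proj v
  have hL : ∀ z, L z = ∑ v : {v : V // v ≠ i}, x v.1 * z v := by
    intro z
    simp [L, LinearMap.sum_apply]
  have hconv : ∀ q : V → ℂ, ∑ v : {v : V // v ≠ i}, x v.1 * q v.1 =
      ∑ v ∈ Finset.univ.erase i, q v * x v := by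
    intro q
    rw [← Finset.sum_subtype (Finset.univ.erase i) (p := fun v => v ≠ i)
      (fun v => by simp) (fun v => x v * q v)]
    exact Finset.sum_congr rfl fun v _ => mul_comm _ _
  have hL0 : L = 0 := by
    refine LinearMap.ext fun z => ?_
    have hz : z ∈ Submodule.span ℂ (Set.range r) := by
      rw [hspan]
      trivial
    induction hz using Submodule.span_induction with
    | mem z hz =>
      obtain ⟨k, rfl⟩ := hz
      rw [hL]
      fin_cases k
      · change ∑ v : {v : V // v ≠ i}, x v.1 * eval y (pderiv v.1 (g a)) = 0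
        rw [hconv fun v => eval y (pderiv v (g a))]
        exact h1
      · change ∑ v : {v : V // v ≠ i}, x v.1 * eval y (pderiv v.1 (g b)) = 0
        rw [hconv fun v => eval y (pderiv v (g b))]
        exact h2
    | zero => simp
    | add z z' _ _ hz hz' => rw [map_add, hz, hz']; simp
    | smul t z _ hz => rw [map_smul, hz]; simp
  funext v
  by_cases hv : v = i
  · subst hv
    exact hxi
  · have h3 := hL (Pi.single ⟨v, hv⟩ 1)
    rw [hL0, LinearMap.zero_apply, Finset.sum_eq_single ⟨v, hv⟩ (fun u _ hu => by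
      rw [Pi.single_eq_of_ne hu, mul_zero]) (fun h => absurd (Finset.mem_univ _) h),
      Pi.single_eq_same, mul_one] at h3
    exact h3.symm

/-- A subfamily. -/
theorem nc_cub (y : V → ℂ) (i : V) (ga gb : MvPolynomial V ℂ) (κ δ : ℂ) (hκ : κ ≠ 0) (hδ : δ ≠ 0)
    (hind : ∀ α β : ℂ, (∀ v, v ≠ i → α * eval y (pderiv v ga) + β * eval y (pderiv v gb) = 0) →
      α = 0 ∧ β = 0)
    (hker : ∀ x : V → ℂ, x i = 0 → eval x (lin y i ga) = 0 → eval x (lin y i gb) = 0 → x = 0)
    (x : V → ℂ) : NormalCrossingsAt (fun _ : Unit => cub y i ga gb κ δ) x ↔ x ≠ 0 := by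
  classical
  constructor
  · rintro h rfl
    have h0 : eval (0 : V → ℂ) (cub y i ga gb κ δ) = 0 := by
      rw [cub_eval, lin_eval, lin_eval]
      simp
    have h1 := h.ne_zero ⟨(), h0⟩
    apply h1
    funext v
    change eval 0 (pderiv v (cub y i ga gb κ δ)) = 0
    by_cases hv : v = i
    · subst hv
      have h2 : ∀ g : MvPolynomial V ℂ, pderiv v (lin y v g) = 0 := by
        intro g
        unfold lin
        rw [map_sum]
        refine Finset.sum_eq_zero fun u hu => ?_
        rw [pderiv_C_mul, pderiv_X_of_ne (Finset.ne_of_mem_erase hu), mul_zero]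
      unfold cub
      rw [map_add, pderiv_C_mul, pderiv_C_mul, Derivation.leibniz, h2, h2, smul_zero, smul_zero,
        pderiv_pow, pderiv_X_self]
      simp
    · rw [cub_pderiv y i ga gb κ δ 0 v hv, lin_eval, lin_eval]
      simp
  · intro hx
    have h1 := (nc_two y i ga gb κ δ hκ hδ hind hker x).2 hx
    let t : {j : Unit // eval x (cub y i ga gb κ δ) = 0} →
        {j : Bool // eval x (twoG y i ga gb κ δ j) = 0} := fun j => ⟨true, j.2⟩
    have ht : Function.Injective t := fun u v _ => Subtype.ext (Subsingleton.elim _ _)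
    exact LinearIndependent.comp h1 t ht

/-- The crossing divisor. -/
theorem cross_final (hV : Fintype.card V = 3) (P y : V → ℂ) (i : V) (hi : y i ≠ 0)
    (F ga gb : MvPolynomial V ℂ) (n nz m0 : ℕ) (c κ δ : ℂ) (hc : c ≠ 0) (hκ : κ ≠ 0) (hδ : δ ≠ 0)
    (hm0 : 0 < m0)
    (hind : ∀ α β : ℂ, (∀ v, v ≠ i → α * eval y (pderiv v ga) + β * eval y (pderiv v gb) = 0) →
      α = 0 ∧ β = 0)
    (hker : ∀ x : V → ℂ, x i = 0 → eval x (lin y i ga) = 0 → eval x (lin y i gb) = 0 → x = 0)
    (hlow : LowC (wz i) n (shift 0 (aeval (aff P y i) F))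
      (C c * (X i ^ nz * cub y i ga gb κ δ ^ m0))) : IsCrossingDivisor F n 8 := by
  classical
  have hcub : IsWeightedHomogeneous (wz i) (cub y i ga gb κ δ) 6 := by
    have h1 : ∀ q : MvPolynomial V ℂ, IsWeightedHomogeneous (wz i) (lin y i q) 3 := by
      intro q
      unfold lin
      refine IsWeightedHomogeneous.sum _ _ _ fun v hv => ?_
      have h2 := (isWeightedHomogeneous_C (wz i) (eval y (pderiv v q))).mul
        (isWeightedHomogeneous_X ℂ (wz i) v)
      rwa [zero_add, wz, if_neg (Finset.ne_of_mem_erase hv)] at h2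
    unfold cub
    refine IsWeightedHomogeneous.add ?_ ?_
    · have h2 := (isWeightedHomogeneous_C (wz i) κ).mul ((h1 ga).mul (h1 gb))
      rwa [zero_add] at h2
    · have h2 := (isWeightedHomogeneous_C (wz i) δ).mul
        ((isWeightedHomogeneous_X ℂ (wz i) i).pow 3)
      rwa [zero_add, wz, if_pos rfl] at h2
  have hsum := sum_wz i
  rw [hV] at hsum
  have htwo : ∃ v v', v ≠ v' ∧ 0 < wz i v ∧ 0 < wz i v' := by
    obtain ⟨v, v', hv⟩ := Fintype.exists_pair_of_one_lt_card (α := V) (by omega)
    refine ⟨v, v', hv, ?_, ?_⟩ <;> (unfold wz; split_ifs <;> omega)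
  have hvars : ∀ v ∈ (1 : MvPolynomial V ℂ).vars, wz i v = 0 := by
    intro v hv
    rw [← C_1, vars_C] at hv
    exact absurd hv (Finset.notMem_empty v)
  have hx : ∀ x : V → ℂ, x ≠ 0 ↔ ∃ v, 0 < wz i v ∧ x v ≠ 0 := by
    intro x
    constructor
    · intro hx
      by_contra hcon
      push Not at hcon
      apply hx
      funext v
      exact hcon v (by unfold wz; split_ifs <;> omega)
    · rintro ⟨v, -, hv⟩ rfl
      exact hv rfl
  rcases Nat.eq_zero_or_pos nz with h0 | h0
  · subst h0
    rw [pow_zero, one_mul] at hlow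
    refine ⟨aff P y i, affI P y i, 0, wz i, Unit, inferInstance,
      fun _ => cub y i ga gb κ δ, fun _ => 6, fun _ => m0, c, 1,
      isAut_aff P y i hi, htwo, by omega, fun _ => hcub, fun _ => hm0, hc, ?_, one_ne_zero, hvars,
      fun x _ => ?_⟩
    · rw [Fintype.prod_unique]
      exact hlow
    · rw [nc_cub y i ga gb κ δ hκ hδ hind hker x, hx]
  · refine ⟨aff P y i, affI P y i, 0, wz i, Bool, inferInstance, twoG y i ga gb κ δ,
      fun j => if j = true then 6 else 2, fun j => if j = true then m0 else nz, c, 1,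
      isAut_aff P y i hi, htwo, by omega, ?_, ?_, hc, ?_, one_ne_zero, hvars, fun x _ => ?_⟩
    · intro j
      cases j
      · have := isWeightedHomogeneous_X ℂ (wz i) i
        rw [wz, if_pos rfl] at this
        exact this
      · exact hcub
    · intro j
      cases j
      · simp only [Bool.false_eq_true, if_false]
        exact h0
      · simp only [if_true]
        exact hm0
    · have h1 : (C c * ∏ j : Bool, twoG y i ga gb κ δ j ^ (if j = true then m0 else nz) :
          MvPolynomial V ℂ) = C c * (X i ^ nz * cub y i ga gb κ δ ^ m0) := by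
        rw [Fintype.prod_bool]
        simp only [Bool.false_eq_true, if_false, if_true]
        congr 1
        exact mul_comm _ _
      rw [h1]
      exact hlow
    · rw [nc_two y i ga gb κ δ hκ hδ hind hker x, hx]

end indep

variable {J : Type} [Fintype J] [DecidableEq J]

theorem degs {K : Type} [Fintype K] [DecidableEq K] (P : Fin 3 → ℂ) (f : MvPolynomial (Fin 3) ℂ)
    (d : ℕ) (g : K → MvPolynomial (Fin 3) ℂ) (e : K → ℕ) (hg : ∀ j, (g j).IsHomogeneous (e j))
    (c : ℂ) (hc : c ≠ 0) (U : Finset K)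
    (hcone : homogeneousComponent d (shift P f) = C c * ∏ j ∈ U, g j)
    (hne : ∀ k, g k ≠ 0) : d = ∑ k ∈ U, e k := by
  have hG := homogeneousComponent_isHomogeneous d (shift P f)
  have hprod : (C c * ∏ j ∈ U, g j).IsHomogeneous (∑ j ∈ U, e j) := by
    have h1 : (∏ j ∈ U, g j).IsHomogeneous (∑ j ∈ U, e j) := IsHomogeneous.prod _ _ _ fun j _ => hg j
    exact h1.C_mul c
  rw [hcone] at hG
  exact hG.inj_right hprod (mul_ne_zero (C_ne_zero.2 hc) (Finset.prod_ne_zero_iff.2 fun j _ =>
    hne j))

theorem g_ne {K : Type} (g : K → MvPolynomial (Fin 3) ℂ)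
    (hnc : ∀ y, y ≠ 0 → NormalCrossingsAt g y) (k : K) : g k ≠ 0 := by
  intro h0
  have hy : (Pi.single 0 1 : Fin 3 → ℂ) ≠ 0 := by
    intro h
    have := congrFun h 0
    simp at this
  have h1 : eval (Pi.single 0 1 : Fin 3 → ℂ) (g k) = 0 := by rw [h0, map_zero]
  apply (hnc _ hy).ne_zero ⟨k, h1⟩
  funext v
  change eval _ (pderiv v (g k)) = 0
  rw [h0, map_zero, map_zero]

/-- **The second divisors over a superisolated point.** -/
theorem cross_two' (f : J → MvPolynomial (Fin 3) ℂ) (P : Fin 3 → ℂ) (d : J → ℕ)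
    (H : IsSuperisolatedAt f P d) (m : J → ℕ) (hm : ∀ j, 0 < m j) (c : ℂ) (hc : c ≠ 0) (j0 : J)
    (y : Fin 3 → ℂ) (hy : IsNodeAt (f j0) P (d j0) y) :
    IsCrossingDivisor (C c * ∏ j, f j ^ m j) (2 * (∑ j, m j * d j + m j0)) 8 := by
  classical
  obtain ⟨K, iK, π, g, e, cc, hcc, hg, hcone, hnc, -⟩ := H.cone
  have hcone' : ∀ j, homogeneousComponent (d j) (shift P (f j)) =
      C (cc j) * ∏ k ∈ Finset.univ.filter (fun k => π k = j), g k := by
    intro j
    rw [hcone j]
    congr 2
    exact Finset.filter_congr_decidable _ _ _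
  have hne := g_ne g hnc
  obtain ⟨a, b, hab, haU, hbU, ha, hb, hother⟩ := two_compT (Fintype.card_fin 3) g e hg (cc j0)
    (hcc j0) _ _ (hcone' j0) y hy.1 (hnc y hy.1) hy.2.1 hy.2.2
  have hpos : ∀ j, eval y (g j) = 0 → ∃ n, e j = n + 1 := by
    intro j hj
    rcases Nat.eq_zero_or_pos (e j) with h0 | h0
    · exfalso
      have h1 := hg j
      rw [h0] at h1
      have h2 : g j = C (coeff 0 (g j)) := totalDegree_eq_zero_iff_eq_C.1 (by
        have := h1.totalDegree_le
        omega)
      rw [h2, eval_C] at hj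
      have h3 := (hnc y hy.1).ne_zero ⟨j, by rw [h2, eval_C]; exact hj⟩
      apply h3
      funext v
      change eval y (pderiv v (g j)) = 0
      rw [h2, pderiv_C, map_zero]
    · exact ⟨e j - 1, by omega⟩
  obtain ⟨ea, hea⟩ := hpos a ha
  obtain ⟨eb, heb⟩ := hpos b hb
  obtain ⟨i, hi⟩ : ∃ i, y i ≠ 0 := by
    by_contra h
    push Not at h
    exact hy.1 (funext h)
  obtain ⟨hind, hker⟩ := node_indep (Fintype.card_fin 3) y g e hg (hnc y hy.1) a b hab ha hb i hi
  have hd0 := degs P (f j0) (d j0) g e hg (cc j0) (hcc j0) _ (hcone' j0) hne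
  obtain ⟨h2d, hl0⟩ := low_nodeT P y i (f j0) (d j0) (H.low j0) g e hg (cc j0) _ (hcone' j0) a b
    hab haU hbU ha hb ea eb hea heb hd0
  set κ := cc j0 * ∏ j ∈ ((Finset.univ.filter (fun k => π k = j0)).erase a).erase b, eval y (g j)
    with hκ
  have hκ0 : κ ≠ 0 := by
    refine mul_ne_zero (hcc j0) (Finset.prod_ne_zero_iff.2 fun j hj => ?_)
    have h1 := Finset.mem_erase.1 hj
    exact hother j (Finset.ne_of_mem_erase h1.2) h1.1
  set δ := eval y (homogeneousComponent (d j0 + 1) (shift P (f j0))) with hδ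
  have hδ0 : δ ≠ 0 := H.next j0 y hy
  set G : J → ℂ := fun l => eval y (homogeneousComponent (d l) (shift P (f l))) with hG
  have hG0 : ∀ l, l ≠ j0 → G l ≠ 0 := by
    intro l hl
    change eval y _ ≠ 0
    rw [hcone' l, map_mul, eval_C, map_prod]
    refine mul_ne_zero (hcc l) (Finset.prod_ne_zero_iff.2 fun k hk => ?_)
    have hk' := (Finset.mem_filter.1 hk).2
    refine hother k ?_ ?_
    · rintro rfl
      exact hl (hk'.symm.trans (Finset.mem_filter.1 haU).2)
    · rintro rfl
      exact hl (hk'.symm.trans (Finset.mem_filter.1 hbU).2)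
  have hrest : LowC (wz i) (∑ l ∈ Finset.univ.erase j0, m l * (2 * d l))
      (∏ l ∈ Finset.univ.erase j0, (shift 0 (aeval (aff P y i) (f l))) ^ m l)
      (∏ l ∈ Finset.univ.erase j0, (C (G l) * X i ^ d l) ^ m l) :=
    LowC.prod _ fun l _ => (low_other P y i (f l) (d l) (H.low l)).pow (m l)
  have hall := (LowC.C (w := wz i) c).mul ((hl0.pow (m j0)).mul hrest)
  have hsh : ∀ q : MvPolynomial (Fin 3) ℂ, shift (0 : Fin 3 → ℂ) q = q := by
    intro q
    unfold shift
    have : (fun v => C ((0 : Fin 3 → ℂ) v) + X v : Fin 3 → MvPolynomial (Fin 3) ℂ) = X := by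
      funext v
      rw [Pi.zero_apply, C_0, zero_add]
    rw [this, aeval_X_left_apply]
  refine cross_final (Fintype.card_fin 3) P y i hi _ (g a) (g b) _
    ((d j0 - 2) * m j0 + ∑ l ∈ Finset.univ.erase j0, m l * d l) (m j0)
    (c * ∏ l ∈ Finset.univ.erase j0, G l ^ m l) κ δ ?_ hκ0 hδ0 (hm j0) hind hker ?_
  · refine mul_ne_zero hc (Finset.prod_ne_zero_iff.2 fun l hl => ?_)
    exact pow_ne_zero _ (hG0 l (Finset.ne_of_mem_erase hl))
  · have e1 : 0 + (m j0 * (2 * d j0 + 2) + ∑ l ∈ Finset.univ.erase j0, m l * (2 * d l)) =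
        2 * (∑ j, m j * d j + m j0) := by
      rw [← Finset.sum_erase_add _ _ (Finset.mem_univ j0), zero_add, Finset.sum_congr rfl
        fun l _ => show m l * (2 * d l) = 2 * (m l * d l) by ring, ← Finset.mul_sum]
      ring
    have e2 : shift 0 (aeval (aff P y i) (C c * ∏ j, f j ^ m j)) =
        C c * (shift 0 (aeval (aff P y i) (f j0)) ^ m j0 *
          ∏ l ∈ Finset.univ.erase j0, (shift 0 (aeval (aff P y i) (f l))) ^ m l) := by
      simp only [hsh]
      rw [← Finset.mul_prod_erase _ _ (Finset.mem_univ j0), map_mul, map_mul, aeval_C,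
        algebraMap_eq, map_pow, map_prod]
      simp only [map_pow]
    have e3 : C (c * ∏ l ∈ Finset.univ.erase j0, G l ^ m l) *
        (X i ^ ((d j0 - 2) * m j0 + ∑ l ∈ Finset.univ.erase j0, m l * d l) *
          cub y i (g a) (g b) κ δ ^ m j0) =
        C c * ((X i ^ (d j0 - 2) * cub y i (g a) (g b) κ δ) ^ m j0 *
          ∏ l ∈ Finset.univ.erase j0, (C (G l) * X i ^ d l) ^ m l) := by
      have e4 : (C (∏ l ∈ Finset.univ.erase j0, G l ^ m l) : MvPolynomial (Fin 3) ℂ) =
          ∏ l ∈ Finset.univ.erase j0, C (G l) ^ m l := by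
        rw [← Finset.prod_congr rfl fun l _ => C_pow (G l) (m l)]
        exact map_prod C _ _
      simp only [mul_pow]
      rw [Finset.prod_mul_distrib, C_mul, e4, pow_add, ← pow_mul, ← Finset.prod_pow_eq_pow_sum,
        Finset.prod_congr rfl fun l _ => show (X i : MvPolynomial (Fin 3) ℂ) ^ (m l * d l) =
          (X i ^ d l) ^ m l by rw [← pow_mul, mul_comm]]
      ring
    rw [e1, ← e2, ← e3] at hall
    exact hall

/-- **The first divisor over a superisolated point.** -/
theorem cross_one' (f : J → MvPolynomial (Fin 3) ℂ) (P : Fin 3 → ℂ) (d : J → ℕ)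
    (H : IsSuperisolatedAt f P d) (m : J → ℕ) (hm : ∀ j, 0 < m j) (c : ℂ) (hc : c ≠ 0) :
    IsCrossingDivisor (C c * ∏ j, f j ^ m j) (∑ j, m j * d j) 3 := by
  classical
  obtain ⟨K, iK, π, g, e, cc, hcc, hg, hcone, hnc, h0⟩ := H.cone
  have hcone' : ∀ j, homogeneousComponent (d j) (shift P (f j)) =
      C (cc j) * ∏ k ∈ Finset.univ.filter (fun k => π k = j), g k := by
    intro j
    rw [hcone j]
    congr 2
    exact Finset.filter_congr_decidable _ _ _
  have hX : IsAut (X : Fin 3 → MvPolynomial (Fin 3) ℂ) X :=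
    ⟨fun v => by rw [aeval_X], fun v => by rw [aeval_X]⟩
  have hone : ∀ v ∈ (1 : MvPolynomial (Fin 3) ℂ).vars, (fun _ : Fin 3 => 1) v = 0 := by
    intro v hv
    rw [← C_1, vars_C] at hv
    exact absurd hv (Finset.notMem_empty v)
  have hl : ∀ j, LowC (fun _ : Fin 3 => 1) (d j) (shift P (f j))
      (C (cc j) * ∏ k ∈ Finset.univ.filter (fun k => π k = j), g k) :=
    fun j => ⟨H.low j, hcone' j⟩
  have hall := (LowC.C (w := fun _ : Fin 3 => 1) c).mul (LowC.prod Finset.univ
    fun j _ => (hl j).pow (m j))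
  refine ⟨X, X, P, fun _ => 1, K, iK, g, e, fun k => m (π k), c * ∏ j, cc j ^ m j, 1, hX,
    ⟨0, 1, by decide, one_pos, one_pos⟩, by simp, fun j => hg j, fun _ => hm _,
    mul_ne_zero hc (Finset.prod_ne_zero_iff.2 fun j _ => pow_ne_zero _ (hcc j)), ?_, one_ne_zero,
    hone, ?_⟩
  · have e1 : shift P (aeval X (C c * ∏ j, f j ^ m j)) = C c * ∏ j, shift P (f j) ^ m j := by
      rw [aeval_X_left_apply]
      unfold shift
      rw [map_mul, map_prod, aeval_C, algebraMap_eq]
      simp only [map_pow]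
    have e2 : C (c * ∏ j, cc j ^ m j) * ∏ k, g k ^ m (π k) =
        C c * ∏ j, (C (cc j) * ∏ k ∈ Finset.univ.filter (fun k => π k = j), g k) ^ m j := by
      have e3 : (C (∏ j, cc j ^ m j) : MvPolynomial (Fin 3) ℂ) = ∏ j, C (cc j) ^ m j := by
        rw [← Finset.prod_congr rfl fun l _ => C_pow (cc l) (m l)]
        exact map_prod C _ _
      simp only [mul_pow]
      rw [Finset.prod_mul_distrib, C_mul, e3, mul_assoc]
      congr 2
      rw [← Finset.prod_fiberwise Finset.univ π (fun k => g k ^ m (π k))]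
      refine Finset.prod_congr rfl fun j _ => ?_
      rw [← Finset.prod_pow]
      refine Finset.prod_congr rfl fun k hk => ?_
      rw [(Finset.mem_filter.1 hk).2]
    rw [e1, e2]
    rw [zero_add] at hall
    exact hall
  · intro x _
    constructor
    · intro hx
      by_contra hcon
      push Not at hcon
      apply h0
      have : x = 0 := funext fun v => hcon v one_pos
      rwa [this] at hx
    · rintro ⟨v, -, hv⟩
      exact hnc x fun h => hv (by rw [h]; rfl)

end Pool.Agent.L0h21.MD
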